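import Pool.Agent.U17.PP.Iso

/-!
# The affine isomorphism
-/

set_option autoImplicit false

namespace Pool.Agent.U17.PP

open Finset

/-! ### Linearity -/

theorem Fv_congr {𝕜 : Type} [Field 𝕜] {S : ℕ → ℕ → ℤ} {y y' : ℕ → 𝕜} {C : ℕ}
    (h : ∀ j < C, y j = y' j) {v : Lb} (hv : v.2.2 < C) : Fv S y v = Fv S y' v := by
  have hW : ∀ i j, j ≤ C → Wv S y i j = Wv S y' i j := by
    intro i j hj
    unfold Wv
    congr 1
    refine sum_congr rfl fun k hk => ?_
    rw [mem_range] at hk
    rw [h k (by omega)]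
  unfold Fv
  rw [h _ hv, hW _ _ (by omega), hW _ _ hv.le]

section

variable (m n B : ℕ) (a : ℕ → ℕ → ℤ) (co : ℕ → ℤ)

/-- extension of a vector by `1` -/
def Xf {𝕜 : Type} [One 𝕜] {n : ℕ} (x : Fin n → 𝕜) (l : ℕ) : 𝕜 := if h : l < n then x ⟨l, h⟩ else 1

/-- the values of the variables of the planar program -/
def Ph {𝕜 : Type} [Field 𝕜] [LinearOrder 𝕜] [IsStrictOrderedRing 𝕜] (x : Fin n → 𝕜)
    (j : Fin (VL m n B).length) : 𝕜 :=
  Fv (Sg m n B a co) (Yv n B (Xf x)) (VL m n B)[j]

/-- the value of a variable as a linear function -/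
noncomputable def LX (v : Lb) : (ℕ → ℝ) →ₗ[ℝ] ℝ where
  toFun X := Fv (Sg m n B a co) (Yv n B X) v
  map_add' X X' := by
    have hp : ∀ g, pw B (X + X') g = pw B X g + pw B X' g := by
      intro g; unfold pw; rw [Pi.add_apply]; ring
    have hU : U0 n B (X + X') = U0 n B X + U0 n B X' := by
      unfold U0
      simp only [Pi.add_apply, sum_add_distrib]
      ring
    have hY : ∀ j, Yv n B (X + X') j = Yv n B X j + Yv n B X' j := by
      intro j; unfold Yv; rw [hp, hp, hU]; split_ifs <;> rfl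
    have hW : ∀ i j, Wv (Sg m n B a co) (Yv n B (X + X')) i j =
        Wv (Sg m n B a co) (Yv n B X) i j + Wv (Sg m n B a co) (Yv n B X') i j := by
      intro i j
      unfold Wv
      simp only [hY, mul_add, sum_add_distrib]
      ring
    unfold Fv
    rw [hY, hW, hW]
    split_ifs
    · rfl
    · rfl
    · ring
    · rfl
  map_smul' t X := by
    have hp : ∀ g, pw B (t • X) g = t * pw B X g := by
      intro g; unfold pw; rw [Pi.smul_apply, smul_eq_mul]; ring
    have hU : U0 n B (t • X) = t * U0 n B X := by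
      unfold U0
      simp only [Pi.smul_apply, smul_eq_mul, ← mul_sum]
      ring
    have hY : ∀ j, Yv n B (t • X) j = t * Yv n B X j := by
      intro j; unfold Yv; rw [hp, hp, hU]; split_ifs <;> rfl
    have hW : ∀ i j, Wv (Sg m n B a co) (Yv n B (t • X)) i j =
        t * Wv (Sg m n B a co) (Yv n B X) i j := by
      intro i j
      unfold Wv
      rw [mul_neg, mul_sum]
      congr 1
      refine sum_congr rfl fun k _ => ?_
      rw [hY]
      ring
    rw [RingHom.id_apply, smul_eq_mul]
    unfold Fv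
    rw [hY, hW, hW]
    split_ifs
    · rfl
    · rfl
    · ring
    · rfl

/-- extension by zero -/
noncomputable def X0 : (Fin n → ℝ) →ₗ[ℝ] (ℕ → ℝ) where
  toFun x l := if h : l < n then x ⟨l, h⟩ else 0
  map_add' x y := by
    funext l
    by_cases h : l < n <;> simp [h]
  map_smul' t y := by
    funext l
    by_cases h : l < n <;> simp [h]

theorem Xf_eq (x : Fin n → ℝ) : Xf x = X0 n x + Xf (0 : Fin n → ℝ) := by
  funext l
  by_cases h : l < n <;> simp [Xf, X0, h]

/-- the affine map -/
noncomputable def PhA : (Fin n → ℝ) →ᵃ[ℝ] (Fin (VL m n B).length → ℝ) where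
  toFun := Ph m n B a co
  linear := LinearMap.pi fun j => (LX m n B a co (VL m n B)[j]).comp (X0 n)
  map_vadd' x y := by
    funext j
    show LX m n B a co (VL m n B)[j] (Xf (y + x)) =
      LX m n B a co (VL m n B)[j] (X0 n y) + LX m n B a co (VL m n B)[j] (Xf x)
    rw [← map_add]
    congr 1
    rw [Xf_eq n (y + x), Xf_eq n x, map_add]
    abel

theorem PhA_apply (x : Fin n → ℝ) : PhA m n B a co x = Ph m n B a co x := rfl

/-- the given variables are among the new ones -/
theorem Ph_tau {𝕜 : Type} [Field 𝕜] [LinearOrder 𝕜] [IsStrictOrderedRing 𝕜] (x : Fin n → 𝕜)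
    (l : Fin n) : Ph m n B a co x (tau m n B l) = x l := by
  unfold Ph
  rw [VL_tau]
  simp only [Fv, if_true]
  have h1 := blk_div B (l := (l : ℕ)) (k := 0) (Nat.succ_pos B)
  have h2 := blk_mod B (l := (l : ℕ)) (k := 0) (Nat.succ_pos B)
  rw [add_zero] at h1 h2
  have h3 : (B + 1) * (l : ℕ) < GG n B := by
    unfold GG
    have h4 := l.2
    have : (B + 1) * ((l : ℕ) + 1) ≤ (B + 1) * n := Nat.mul_le_mul_left _ h4
    have h5 : (n + 1) * (B + 1) = (B + 1) * n + (B + 1) := by ring
    rw [Nat.mul_succ] at this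
    omega
  rw [Yv_p _ _ _ h3]
  unfold pw
  rw [h1, h2, pow_zero, one_mul]
  simp [Xf]

theorem PhA_injective : Function.Injective (PhA m n B a co) := by
  intro x y h
  funext l
  have h1 := congrFun h (tau m n B l)
  rw [PhA_apply, PhA_apply, Ph_tau, Ph_tau] at h1
  exact h1

/-- the objective function -/
theorem obj_Ph (x : Fin n → ℝ) (hc : ∀ l ≤ n, (co l).natAbs < 2 ^ B) :
    obj (cm m n B) (Ph m n B a co x) = ∑ l ∈ range (n + 1), (co l : ℝ) * Xf x l := by
  have h0 : obj (cm m n B) (Ph m n B a co x) =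
      ∑ v ∈ (VL m n B).toFinset, (objQ m n B v : ℝ) * Fv (Sg m n B a co) (Yv n B (Xf x)) v := by
    rw [← sum_getElem' _ (nodup_VL m n B)]
    rfl
  have hG : 0 < GG n B := Nat.mul_pos (Nat.succ_pos n) (Nat.succ_pos B)
  have hp : ((1, NR m n B - 1, NC n B - 1) : Lb) ∈ (VL m n B).toFinset := by
    rw [List.mem_toFinset, mem_VL]
    right
    left
    refine ⟨rfl, ?_, ?_, ?_⟩
    · show NR m n B - 1 < NR m n B
      unfold NR; omega
    · show NC n B - 1 < NC n B
      unfold NC; omega
    · rintro ⟨h1, -⟩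
      simp only [clo, decide_eq_true_eq] at h1
      unfold NR at h1
      omega
  have hq : ((0, 0, NC n B - 1) : Lb) ∈ (VL m n B).toFinset := by
    rw [List.mem_toFinset, mem_VL]
    left
    refine ⟨rfl, Nat.zero_le _, ?_⟩
    show NC n B - 1 < NC n B
    unfold NC; omega
  rw [h0]
  have h1 : ∀ v ∈ (VL m n B).toFinset,
      (objQ m n B v : ℝ) * Fv (Sg m n B a co) (Yv n B (Xf x)) v =
      (if v = (1, NR m n B - 1, NC n B - 1) then
        Fv (Sg m n B a co) (Yv n B (Xf x)) (1, NR m n B - 1, NC n B - 1) else 0) -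
      (if v = (0, 0, NC n B - 1) then
        Fv (Sg m n B a co) (Yv n B (Xf x)) (0, 0, NC n B - 1) else 0) := by
    intro v _
    unfold objQ
    push_cast
    rw [sub_mul]
    congr 1
    · split_ifs with h
      · rw [h, Rat.cast_one, one_mul]
      · rw [Rat.cast_zero, zero_mul]
    · split_ifs with h
      · rw [h, Rat.cast_one, one_mul]
      · rw [Rat.cast_zero, zero_mul]
  rw [sum_congr rfl h1, sum_sub_distrib, sum_ite_eq', sum_ite_eq', if_pos hp, if_pos hq]
  have h2 : Fv (Sg m n B a co) (Yv n B (Xf x)) (1, NR m n B - 1, NC n B - 1) =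
      U0 n B (Xf x) + ∑ l ∈ range (n + 1), (co l : ℝ) * Xf x l := by
    simp only [Fv, one_ne_zero, if_false, if_true]
    rw [← obj_val m n B a co (Xf x) (fun l hl => (hc l hl).trans_le
      (Nat.pow_le_pow_right (by norm_num) (Nat.le_succ B)))]
    rw [show NC n B - 1 + 1 = 2 * GG n B + 2 by unfold NC; omega,
      show NR m n B - 1 = 2 + 2 * GG n B + m by unfold NR; omega]
  have h3 : Fv (Sg m n B a co) (Yv n B (Xf x)) (0, 0, NC n B - 1) = U0 n B (Xf x) := by
    simp only [Fv, if_true]
    rw [show NC n B - 1 = 2 * GG n B + 1 by unfold NC; omega, Yv_w]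
  rw [h2, h3]
  ring

/-- the last values are nonnegative -/
theorem Wv_last {X : ℕ → ℝ} (hX : ∀ l ≤ n, 0 ≤ X l)
    (hc : ∀ l ≤ n, (co l).natAbs < 2 ^ B) (ha : ∀ i < m, ∀ l ≤ n, (a i l).natAbs < 2 ^ B)
    (hA : ∀ i < m, ∑ l ∈ range (n + 1), (a i l : ℝ) * X l ≤ 0) {i : ℕ} (hi : i < NR m n B) :
    0 ≤ Wv (Sg m n B a co) (Yv n B X) i (2 * GG n B + 2) := by
  have hpow : (2 : ℕ) ^ B ≤ 2 ^ (B + 1) := Nat.pow_le_pow_right (by norm_num) (Nat.le_succ B)
  unfold NR at hi
  rcases Nat.lt_or_ge i (2 + 2 * GG n B) with h1 | h1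
  · rw [closed_zero m n B a co X h1]
  · obtain ⟨k, rfl⟩ := Nat.exists_eq_add_of_le h1
    rcases Nat.lt_or_ge k m with h2 | h2
    · rw [main_val m n B a co X h2 (fun l hl => (ha k h2 l hl).trans_le hpow)]
      linarith [hA k h2]
    · have : k = m := by omega
      subst this
      rw [obj_val k n B a co X (fun l hl => (hc l hl).trans_le hpow)]
      have h3 := abs_le_U0 hX hc
      have h4 : -∑ l ∈ range (n + 1), ((co l).natAbs : ℝ) * X l ≤
          ∑ l ∈ range (n + 1), (co l : ℝ) * X l := by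
        rw [← sum_neg_distrib]
        refine sum_le_sum fun l hl => ?_
        rw [mem_range] at hl
        rw [← neg_mul]
        refine mul_le_mul_of_nonneg_right ?_ (hX l (by omega))
        have : -((co l).natAbs : ℤ) ≤ co l := by omega
        exact_mod_cast this
      linarith

/-- **The affine map is an isomorphism of the polyhedra.** -/
theorem image_Ph (hc : ∀ l ≤ n, (co l).natAbs < 2 ^ B)
    (ha : ∀ i < m, ∀ l ≤ n, (a i l).natAbs < 2 ^ B) :
    PhA m n B a co '' {x | (∀ i < m, ∑ l ∈ range (n + 1), (a i l : ℝ) * Xf x l ≤ 0) ∧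
      ∀ l, 0 ≤ x l} = polyhedron (Am m n B a co) (bm m n B) := by
  classical
  have hG : 0 < GG n B := Nat.mul_pos (Nat.succ_pos n) (Nat.succ_pos B)
  have hκ : kap n B < NC n B := first_lt n B le_rfl
  have hVs := isV_VL m n B
  have hnd := nodup_VL m n B
  have hXk : ∀ x : Fin n → ℝ, Yv n B (Xf x) (kap n B) = 1 := by
    intro x
    have h1 := blk_div B (l := n) (k := 0) (Nat.succ_pos B)
    have h2 := blk_mod B (l := n) (k := 0) (Nat.succ_pos B)
    rw [add_zero] at h1 h2
    have h3 : (B + 1) * n < GG n B := by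
      unfold GG
      have h5 : (n + 1) * (B + 1) = (B + 1) * n + (B + 1) := by ring
      omega
    unfold kap
    rw [Yv_p _ _ _ h3]
    unfold pw
    rw [h1, h2]
    simp [Xf]
  -- the sum over all variables
  have hsum : ∀ (z : Fin (VL m n B).length → ℝ) (zz : Lb → ℝ)
      (_ : ∀ j : Fin (VL m n B).length, zz (VL m n B)[j] = z j) (i : Fin (RL m n B).length),
      ∑ j, (Am m n B a co i j : ℝ) * z j = (sg (RL m n B)[i].2 : ℝ) *
        ∑ v ∈ (VL m n B).toFinset,
          (ent (Sg m n B a co) (kap n B) (RL m n B)[i].1 v : ℝ) * zz v := by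
    intro z zz hz i
    rw [mul_sum, ← sum_getElem' _ hnd]
    refine sum_congr rfl fun j _ => ?_
    rw [hz j]
    unfold Am entQ
    push_cast
    ring
  ext z
  constructor
  · rintro ⟨x, ⟨hx1, hx2⟩, rfl⟩
    have hX : ∀ l ≤ n, 0 ≤ Xf x l := by
      intro l _
      unfold Xf
      split_ifs
      · exact hx2 _
      · norm_num
    refine ⟨fun i => ?_, fun j => ?_⟩
    · rw [hsum (PhA m n B a co x) (Fv (Sg m n B a co) (Yv n B (Xf x))) (fun j => rfl)]
      have hi : (RL m n B)[i] ∈ RL m n B := List.getElem_mem _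
      rw [mem_RL] at hi
      rw [sol_of (𝕜 := ℝ) hVs hκ (hXk x) (fun k hk hk' => ?_) hi]
      · unfold bm rhsQ
        push_cast
        rfl
      · simp only [clo, decide_eq_true_eq] at hk'
        exact closed_zero m n B a co (Xf x) hk'
    · have hj : (VL m n B)[j] ∈ VL m n B := List.getElem_mem _
      rw [mem_VL] at hj
      show 0 ≤ Fv (Sg m n B a co) (Yv n B (Xf x)) (VL m n B)[j]
      have hW : ∀ i j, i < NR m n B → j ≤ NC n B →
          0 ≤ Wv (Sg m n B a co) (Yv n B (Xf x)) i j := by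
        intro i j hi hj
        rcases Nat.lt_or_ge j (NC n B) with h1 | h1
        · unfold NR at hi
          unfold NC at h1
          exact Wv_nonneg hX ha hc (by omega) (by omega)
        · have : j = 2 * GG n B + 2 := by unfold NC at *; omega
          rw [this]
          exact Wv_last m n B a co hX hc ha hx1 hi
      unfold Fv
      rcases hj with ⟨h1, h2, h3⟩ | ⟨h1, h2, h3, h4⟩ | ⟨h1, h2, h3⟩
      · rw [if_pos h1]
        exact Yv_nonneg hX _
      · rw [if_neg (by omega), if_pos h1]
        exact hW _ _ h2 h3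
      · rw [if_neg (by omega), if_neg (by omega)]
        split_ifs
        · exact add_nonneg (hW _ _ h2 h3.le) (Yv_nonneg hX _)
        · exact hW _ _ h2 h3
  · rintro ⟨hz1, hz2⟩
    set zz := onL (VL m n B) z with hzz
    have hzj : ∀ j : Fin (VL m n B).length, zz (VL m n B)[j] = z j := fun j => onL_getElem hnd z j
    have heq : ∀ e, IsE (NR m n B) (NC n B) (kap n B) e →
        ∑ v ∈ (VL m n B).toFinset, (ent (Sg m n B a co) (kap n B) e v : ℝ) * zz v = rhs e := by
      intro e he
      have g1 : ((e, true) : Lb × Bool) ∈ RL m n B := by rw [mem_RL]; exact he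
      have g2 : ((e, false) : Lb × Bool) ∈ RL m n B := by rw [mem_RL]; exact he
      obtain ⟨i1, hi1, k1⟩ := List.getElem_of_mem g1
      obtain ⟨i2, hi2, k2⟩ := List.getElem_of_mem g2
      have f1 := hz1 ⟨i1, hi1⟩
      have f2 := hz1 ⟨i2, hi2⟩
      rw [hsum z zz hzj] at f1 f2
      simp only [bm, rhsQ] at f1 f2
      rw [show (RL m n B)[(⟨i1, hi1⟩ : Fin (RL m n B).length)] = (e, true) from k1] at f1
      rw [show (RL m n B)[(⟨i2, hi2⟩ : Fin (RL m n B).length)] = (e, false) from k2] at f2
      simp only [sg] at f1 f2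
      simp only [if_true, Bool.false_eq_true, if_false] at f1 f2
      push_cast at f1 f2
      linarith
    obtain ⟨s1, s2, s3⟩ := sol_eq (𝕜 := ℝ) hVs hκ heq (Sg_vals m n B a co)
    set η : ℕ → ℝ := fun j => zz (0, 0, j) with hη
    have hcol : ∀ j < NC n B, η j = Yv n B (fun l => if l < n then η (1 + (B + 1) * l) else 1) j := by
      intro j hj
      refine cols_eq (m := m) (a := a) (co := co) s2 (fun i hi => ?_) hj
      refine s3 i ?_ ?_
      · unfold NR; omega
      · simpa [clo] using hi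
    set x : Fin n → ℝ := fun l => z (tau m n B l) with hx
    have hXx : (fun l => if l < n then η (1 + (B + 1) * l) else 1) = Xf x := by
      funext l
      unfold Xf
      by_cases h : l < n
      · rw [if_pos h, dif_pos h, hx]
        show zz (0, 0, 1 + (B + 1) * l) = z (tau m n B ⟨l, h⟩)
        rw [← hzj, VL_tau]
      · rw [if_neg h, dif_neg h]
    rw [hXx] at hcol
    have hzx : PhA m n B a co x = z := by
      funext j
      rw [PhA_apply, ← hzj j]
      have hj : (VL m n B)[j] ∈ VL m n B := List.getElem_mem _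
      rw [s1 _ (List.mem_toFinset.2 hj)]
      rw [mem_VL] at hj
      exact (Fv_congr hcol (by omega)).symm
    refine ⟨x, ⟨fun i hi => ?_, fun l => hz2 _⟩, hzx⟩
    have hmem : ((1, 2 + 2 * GG n B + i, NC n B - 1) : Lb) ∈ VL m n B := by
      rw [mem_VL]
      right
      left
      refine ⟨rfl, ?_, ?_, ?_⟩
      · show 2 + 2 * GG n B + i < NR m n B
        unfold NR; omega
      · show NC n B - 1 < NC n B
        unfold NC; omega
      · rintro ⟨h1, -⟩
        simp only [clo, decide_eq_true_eq] at h1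
        omega
    obtain ⟨k, hk, h3⟩ := List.getElem_of_mem hmem
    have h4 := hz2 ⟨k, hk⟩
    rw [← hzx, PhA_apply] at h4
    unfold Ph at h4
    rw [show (VL m n B)[(⟨k, hk⟩ : Fin (VL m n B).length)] =
      (1, 2 + 2 * GG n B + i, NC n B - 1) from h3] at h4
    simp only [Fv, one_ne_zero, if_false, if_true] at h4
    rw [show NC n B - 1 + 1 = 2 * GG n B + 2 by unfold NC; omega,
      main_val m n B a co (Xf x) hi (fun l hl => (ha i hi l hl).trans_le
        (Nat.pow_le_pow_right (by norm_num) (Nat.le_succ B)))] at h4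
    linarith

end

end Pool.Agent.U17.PP
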