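import Pool.Agent.U17.PP.Num
import Pool.Agent.U17.PP.Iso2

/-!
# The planar program is computed in polynomial time
-/

set_option autoImplicit false

namespace Pool.Agent.U17.PP

open Pool.Agent.NPC Pool.Agent.NPC.H532.RP

/-- the input: `A`, `b`, `c`, and the start vertex -/
abbrev Inp : Type := List (List ℚ) × List ℚ × List ℚ × List ℚ

/-- the rows of `A x ≤ b` -/
def rws (x : Inp) : List (List ℤ) := (x.1.zip x.2.1).map fun p => zrow (p.1 ++ [-p.2])

/-- the objective row -/
def cof (x : Inp) : List ℤ := zrow (x.2.2.1 ++ [0])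

/-- number of rows -/
def mm (x : Inp) : ℕ := (rws x).length

/-- number of variables -/
def nn (x : Inp) : ℕ := x.2.2.1.length

/-- number of digits -/
def BB (x : Inp) : ℕ := sz (rws x, cof x)

/-- the coefficients -/
def aa (x : Inp) (i l : ℕ) : ℤ := ((rws x).getD i []).getD l 0

/-- the coefficients of the objective function -/
def cc (x : Inp) (l : ℕ) : ℤ := (cof x).getD l 0

variable {α β : Type} [TEnc α] [TEnc β]

theorem poly_rws {x : α → Inp} (hx : NPC.Poly x) : NPC.Poly (fun t => rws (x t)) := by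
  unfold rws
  fun_prop

theorem poly_cof {x : α → Inp} (hx : NPC.Poly x) : NPC.Poly (fun t => cof (x t)) := by
  unfold cof
  fun_prop

attribute [fun_prop] poly_rws poly_cof

theorem uPoly_mm {x : α → Inp} (hx : NPC.Poly x) : UPoly (fun t => mm (x t)) := by
  unfold mm
  fun_prop

theorem uPoly_nn {x : α → Inp} (hx : NPC.Poly x) : UPoly (fun t => nn (x t)) := by
  unfold nn
  fun_prop

theorem uPoly_BB {x : α → Inp} (hx : NPC.Poly x) : UPoly (fun t => BB (x t)) := by
  unfold BB
  fun_prop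

theorem poly_mm {x : α → Inp} (hx : NPC.Poly x) : NPC.Poly (fun t => mm (x t)) :=
  (uPoly_mm hx).toPoly

theorem poly_nn {x : α → Inp} (hx : NPC.Poly x) : NPC.Poly (fun t => nn (x t)) :=
  (uPoly_nn hx).toPoly

theorem poly_BB {x : α → Inp} (hx : NPC.Poly x) : NPC.Poly (fun t => BB (x t)) :=
  (uPoly_BB hx).toPoly

theorem poly_aa {x : α → Inp} {i l : α → ℕ} (hx : NPC.Poly x) (hi : NPC.Poly i)
    (hl : NPC.Poly l) : NPC.Poly (fun t => aa (x t) (i t) (l t)) := by
  unfold aa
  fun_prop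

theorem poly_cc {x : α → Inp} {l : α → ℕ} (hx : NPC.Poly x)
    (hl : NPC.Poly l) : NPC.Poly (fun t => cc (x t) (l t)) := by
  unfold cc
  fun_prop

attribute [fun_prop] uPoly_mm uPoly_nn uPoly_BB poly_mm poly_nn poly_BB poly_aa poly_cc

/-! ### Rows and columns -/

theorem uPoly_GG {x : α → Inp} (hx : NPC.Poly x) : UPoly (fun t => GG (nn (x t)) (BB (x t))) := by
  unfold GG
  fun_prop

theorem poly_GG {x : α → Inp} (hx : NPC.Poly x) :
    NPC.Poly (fun t => GG (nn (x t)) (BB (x t))) := (uPoly_GG hx).toPoly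

attribute [fun_prop] uPoly_GG poly_GG

theorem uPoly_NR {x : α → Inp} (hx : NPC.Poly x) :
    UPoly (fun t => NR (mm (x t)) (nn (x t)) (BB (x t))) := by
  unfold NR
  fun_prop

theorem uPoly_NC {x : α → Inp} (hx : NPC.Poly x) : UPoly (fun t => NC (nn (x t)) (BB (x t))) := by
  unfold NC
  fun_prop

theorem poly_NR {x : α → Inp} (hx : NPC.Poly x) :
    NPC.Poly (fun t => NR (mm (x t)) (nn (x t)) (BB (x t))) := (uPoly_NR hx).toPoly

theorem poly_NC {x : α → Inp} (hx : NPC.Poly x) :
    NPC.Poly (fun t => NC (nn (x t)) (BB (x t))) := (uPoly_NC hx).toPoly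

theorem poly_kap {x : α → Inp} (hx : NPC.Poly x) :
    NPC.Poly (fun t => kap (nn (x t)) (BB (x t))) := by
  unfold kap
  fun_prop

attribute [fun_prop] uPoly_NR uPoly_NC poly_NR poly_NC poly_kap

theorem uPoly_mod {x : α → Inp} {g : α → ℕ} (hx : NPC.Poly x) (hg : NPC.Poly g) :
    UPoly (fun t => g t % (BB (x t) + 1)) := by
  have h1 : NPC.Poly (fun t => g t % (BB (x t) + 1)) := by fun_prop
  have h2 : UPoly (fun t => BB (x t) + 1) := by fun_prop
  exact UPoly.of_le h1 h2 fun t => (Nat.mod_lt _ (Nat.succ_pos _)).le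

attribute [fun_prop] uPoly_mod

/-! ### The sign matrix -/

/-- the sign matrix -/
def SgX (x : Inp) (i j : ℕ) : ℤ := Sg (mm x) (nn x) (BB x) (aa x) (cc x) i j

theorem poly_su {x : α → Inp} {i : α → ℕ} (hx : NPC.Poly x) (hi : NPC.Poly i) :
    NPC.Poly (fun t => su (nn (x t)) (BB (x t)) (i t)) := by
  unfold su
  fun_prop

theorem poly_sq {x : α → Inp} {i g : α → ℕ} (hx : NPC.Poly x) (hi : NPC.Poly i)
    (hg : NPC.Poly g) : NPC.Poly (fun t => sq (nn (x t)) (BB (x t)) (i t) (g t)) := by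
  unfold sq
  fun_prop

theorem poly_sw {x : α → Inp} {i : α → ℕ} (hx : NPC.Poly x) (hi : NPC.Poly i) :
    NPC.Poly (fun t => sw (mm (x t)) (nn (x t)) (BB (x t)) (i t)) := by
  unfold sw
  fun_prop

theorem poly_sp {x : α → Inp} {i g : α → ℕ} (hx : NPC.Poly x) (hi : NPC.Poly i)
    (hg : NPC.Poly g) :
    NPC.Poly (fun t => sp (mm (x t)) (nn (x t)) (BB (x t)) (aa (x t)) (cc (x t)) (i t) (g t)) := by
  unfold sp
  fun_prop

attribute [fun_prop] poly_su poly_sq poly_sw poly_sp

theorem poly_SgX {x : α → Inp} {i j : α → ℕ} (hx : NPC.Poly x) (hi : NPC.Poly i)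
    (hj : NPC.Poly j) : NPC.Poly (fun t => SgX (x t) (i t) (j t)) := by
  unfold SgX Sg
  fun_prop

attribute [fun_prop] poly_SgX

/-! ### The labels -/

theorem poly_firstL {x : α → Inp} (hx : NPC.Poly x) :
    NPC.Poly (fun t => firstL (nn (x t)) (BB (x t))) := by
  unfold firstL
  fun_prop

attribute [fun_prop] poly_firstL

theorem poly_vb {x : α → Inp} {v : α → Lb} (hx : NPC.Poly x) (hv : NPC.Poly v) :
    NPC.Poly (fun t => vb (mm (x t)) (nn (x t)) (BB (x t)) (v t)) := by
  unfold vb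
  fun_prop

attribute [fun_prop] poly_vb

theorem poly_range3 : NPC.Poly (fun _ : α => List.range 3) := NPC.Poly.const _

attribute [fun_prop] poly_range3

theorem poly_VL {x : α → Inp} (hx : NPC.Poly x) :
    NPC.Poly (fun t => VL (mm (x t)) (nn (x t)) (BB (x t))) := by
  unfold VL
  fun_prop

theorem poly_EL {x : α → Inp} (hx : NPC.Poly x) :
    NPC.Poly (fun t => EL (mm (x t)) (nn (x t)) (BB (x t))) := by
  unfold EL
  fun_prop

attribute [fun_prop] poly_VL poly_EL

theorem poly_RL {x : α → Inp} (hx : NPC.Poly x) :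
    NPC.Poly (fun t => RL (mm (x t)) (nn (x t)) (BB (x t))) := by
  unfold RL
  fun_prop

attribute [fun_prop] poly_RL

end Pool.Agent.U17.PP
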