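import Pool.Agent.U17.PP.Alg

/-!
# The output of the reduction
-/

set_option autoImplicit false

namespace Pool.Agent.U17.PP

open Pool.Agent.NPC Pool.Agent.NPC.H532.RP

variable {α β : Type} [TEnc α] [TEnc β]

/-! ### The entries -/

theorem poly_t1 {x : α → Inp} {e : α → Lb} (hx : NPC.Poly x) (he : NPC.Poly e) :
    NPC.Poly (fun t => t1 (SgX (x t)) (e t)) := by
  unfold t1
  fun_prop

theorem poly_t2 {x : α → Inp} {e : α → Lb} (hx : NPC.Poly x) (he : NPC.Poly e) :
    NPC.Poly (fun t => t2 (SgX (x t)) (e t)) := by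
  unfold t2
  fun_prop

theorem poly_t3 {x : α → Inp} {e : α → Lb} (hx : NPC.Poly x) (he : NPC.Poly e) :
    NPC.Poly (fun t => t3 (SgX (x t)) (kap (nn (x t)) (BB (x t))) (e t)) := by
  unfold t3
  fun_prop

attribute [fun_prop] poly_t1 poly_t2 poly_t3

theorem poly_ent {x : α → Inp} {e v : α → Lb} (hx : NPC.Poly x) (he : NPC.Poly e)
    (hv : NPC.Poly v) :
    NPC.Poly (fun t => ent (SgX (x t)) (kap (nn (x t)) (BB (x t))) (e t) (v t)) := by
  unfold ent
  fun_prop

attribute [fun_prop] poly_ent

theorem poly_sg {b : α → Bool} (hb : NPC.Poly b) : NPC.Poly (fun t => sg (b t)) := by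
  unfold sg
  fun_prop

attribute [fun_prop] poly_sg

/-- the entries -/
def entX (x : Inp) (r : Lb × Bool) (v : Lb) : ℚ :=
  entQ (mm x) (nn x) (BB x) (aa x) (cc x) r v

theorem poly_entX {x : α → Inp} {r : α → Lb × Bool} {v : α → Lb} (hx : NPC.Poly x)
    (hr : NPC.Poly r) (hv : NPC.Poly v) : NPC.Poly (fun t => entX (x t) (r t) (v t)) := by
  have h : NPC.Poly (fun t => sg (r t).2 *
      ((ent (SgX (x t)) (kap (nn (x t)) (BB (x t))) (r t).1 (v t) : ℤ) : ℚ)) := by
    fun_prop
  exact h

theorem poly_rhsQ {r : α → Lb × Bool} (hr : NPC.Poly r) : NPC.Poly (fun t => rhsQ (r t)) := by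
  unfold rhsQ rhs
  fun_prop

theorem poly_objQ {x : α → Inp} {v : α → Lb} (hx : NPC.Poly x) (hv : NPC.Poly v) :
    NPC.Poly (fun t => objQ (mm (x t)) (nn (x t)) (BB (x t)) (v t)) := by
  unfold objQ
  fun_prop

attribute [fun_prop] poly_entX poly_rhsQ poly_objQ

/-! ### The values -/

/-- the given vector, extended by `1` -/
def XL (x : Inp) (l : ℕ) : ℚ := if l < nn x then x.2.2.2.getD l 0 else 1

theorem poly_XL {x : α → Inp} {l : α → ℕ} (hx : NPC.Poly x) (hl : NPC.Poly l) :
    NPC.Poly (fun t => XL (x t) (l t)) := by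
  unfold XL
  fun_prop

attribute [fun_prop] poly_XL

theorem poly_pow2Q {n : α → ℕ} (hn : UPoly n) : NPC.Poly (fun t => (2 : ℚ) ^ (n t)) := by
  have h : NPC.Poly (fun t => ((2 ^ (n t) : ℕ) : ℚ)) := by fun_prop
  exact h.congr fun t => by push_cast; rfl

attribute [fun_prop] poly_pow2Q

theorem poly_pw {x : α → Inp} {g : α → ℕ} (hx : NPC.Poly x) (hg : NPC.Poly g) :
    NPC.Poly (fun t => pw (BB (x t)) (XL (x t)) (g t)) := by
  unfold pw
  fun_prop

attribute [fun_prop] poly_pw

theorem list_sum_range (f : ℕ → ℚ) (k : ℕ) :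
    ((List.range k).map f).sum = ∑ j ∈ Finset.range k, f j := by
  induction k with
  | zero => simp
  | succ k ih => rw [List.range_succ, List.map_append, List.sum_append, ih,
      Finset.sum_range_succ]; simp

theorem poly_U0 {x : α → Inp} (hx : NPC.Poly x) :
    NPC.Poly (fun t => U0 (nn (x t)) (BB (x t)) (XL (x t))) := by
  have h : NPC.Poly (fun t => (2 : ℚ) ^ (BB (x t)) *
      ((List.range (nn (x t) + 1)).map fun l => XL (x t) l).sum) := by fun_prop
  exact h.congr fun t => by rw [list_sum_range]; rfl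

attribute [fun_prop] poly_U0

/-- the values of the columns -/
def YX (x : Inp) (j : ℕ) : ℚ := Yv (nn x) (BB x) (XL x) j

theorem poly_YX {x : α → Inp} {j : α → ℕ} (hx : NPC.Poly x) (hj : NPC.Poly j) :
    NPC.Poly (fun t => YX (x t) (j t)) := by
  unfold YX Yv
  fun_prop

attribute [fun_prop] poly_YX

/-- the values of the rows -/
def WX (x : Inp) (i j : ℕ) : ℚ :=
  -((List.range (min j (NC (nn x) (BB x)))).map fun k => (SgX x i k : ℚ) * YX x k).sum

theorem WX_eq {x : Inp} {i j : ℕ} (hj : j ≤ NC (nn x) (BB x)) :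
    WX x i j = Wv (SgX x) (YX x) i j := by
  unfold WX Wv
  rw [min_eq_left hj, list_sum_range]

theorem uPoly_min {x : α → Inp} {j : α → ℕ} (hx : NPC.Poly x) (hj : NPC.Poly j) :
    UPoly (fun t => min (j t) (NC (nn (x t)) (BB (x t)))) := by
  have h1 : NPC.Poly (fun t => min (j t) (NC (nn (x t)) (BB (x t)))) := by fun_prop
  have h2 : UPoly (fun t => NC (nn (x t)) (BB (x t))) := by fun_prop
  exact UPoly.of_le h1 h2 fun t => min_le_right _ _

attribute [fun_prop] uPoly_min

theorem poly_WX {x : α → Inp} {i j : α → ℕ} (hx : NPC.Poly x) (hi : NPC.Poly i)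
    (hj : NPC.Poly j) : NPC.Poly (fun t => WX (x t) (i t) (j t)) := by
  unfold WX
  have h1 : NPC.Poly (fun t => List.range (min (j t) (NC (nn (x t)) (BB (x t))))) :=
    (uPoly_min hx hj).range
  have h2 : NPC.Poly (fun p : α × ℕ => (SgX (x p.1) (i p.1) p.2 : ℚ) * YX (x p.1) p.2) := by
    fun_prop
  exact poly_negQ (poly_sumQ (NPC.Poly.map
    (F := fun t k => (SgX (x t) (i t) k : ℚ) * YX (x t) k) h1 h2))

attribute [fun_prop] poly_WX

/-- the values of the variables -/
def FX (x : Inp) (v : Lb) : ℚ :=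
  if v.1 = 0 then YX x v.2.2
  else if v.1 = 1 then WX x v.2.1 (v.2.2 + 1)
  else if SgX x v.2.1 v.2.2 = 0 then WX x v.2.1 v.2.2 + YX x v.2.2
  else WX x v.2.1 (v.2.2 + 1)

theorem FX_eq {x : Inp} {v : Lb} (hv : v.2.2 < NC (nn x) (BB x)) :
    FX x v = Fv (SgX x) (YX x) v := by
  unfold FX Fv
  rw [WX_eq hv.le, WX_eq hv]

theorem poly_FX {x : α → Inp} {v : α → Lb} (hx : NPC.Poly x) (hv : NPC.Poly v) :
    NPC.Poly (fun t => FX (x t) (v t)) := by
  unfold FX
  fun_prop

attribute [fun_prop] poly_FX

/-- the planar program and the start vertex -/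
def outp (x : Inp) : Inp :=
  ((RL (mm x) (nn x) (BB x)).map fun r => (VL (mm x) (nn x) (BB x)).map fun v => entX x r v,
    (RL (mm x) (nn x) (BB x)).map fun r => rhsQ r,
    (VL (mm x) (nn x) (BB x)).map fun v => objQ (mm x) (nn x) (BB x) v,
    (VL (mm x) (nn x) (BB x)).map fun v => FX x v)

theorem poly_outp : NPC.Poly outp := by
  unfold outp
  fun_prop

/-- the result -/
abbrev Out : Type := List (List ℚ) × Option (List ℚ)

/-- the translation of the result -/
def back (x : Inp) (y : Out) : Out :=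
  (y.1.map fun z => (List.range (nn x)).map fun l => z.getD l 0,
    y.2.map fun z => (List.range (nn x)).map fun l => z.getD l 0)

theorem poly_back : NPC.Poly (fun p : Inp × Out => back p.1 p.2) := by
  unfold back
  fun_prop

/-- the new version of the simplex method -/
def newf (f : List Bool → List Bool) (w : List Bool) : Out :=
  (unbits Inp w).elim ([], none)
    fun x => (unbits Out (f (bits (outp x)))).elim ([], none) fun y => back x y

theorem polyTime_newf {f : List Bool → List Bool} (hf : PolyTime f) :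
    PolyTime (fun w => bits (newf f w)) := by
  refine polyTime_bits ?_
  unfold newf
  have a1 : PC (bits : Inp → List Bool) (fun x : List Bool => x) (fun x => bits (outp x)) := by
    obtain ⟨c, p, h⟩ := poly_outp
    exact ⟨c, p, h⟩
  have a2 : PC (bits : Inp → List Bool) (fun x : List Bool => x)
      (fun x => f (bits (outp x))) :=
    PC.comp (g := f) (f := fun x => bits (outp x)) (H642R2.TMSim.polyTime_toPC hf) a1
  have a3 : NPC.Poly (fun x : Inp => f (bits (outp x))) :=
    PC.comp (g := fun x => x) (f := fun x => f (bits (outp x))) PC.rawIn a2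
  have a4 : NPC.Poly (fun x : Inp => unbits Out (f (bits (outp x)))) :=
    NPC.Poly.comp (g := unbits Out) poly_unbits a3
  have a5 : NPC.Poly (fun x : Inp =>
      (unbits Out (f (bits (outp x)))).elim ([], none) fun y => back x y) :=
    NPC.Poly.optElim (g := fun _ => (([], none) : Out)) (h := fun x y => back x y) a4
      (NPC.Poly.const _) poly_back
  have a6 : NPC.Poly (fun w : List Bool => unbits Inp w) := poly_unbits
  exact NPC.Poly.optElim (g := fun _ => (([], none) : Out))
    (h := fun (_ : List Bool) (x : Inp) =>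
      (unbits Out (f (bits (outp x)))).elim ([], none) fun y => back x y) a6
    (NPC.Poly.const _) (NPC.Poly.comp (g := fun x : Inp =>
      (unbits Out (f (bits (outp x)))).elim ([], none) fun y => back x y) a5
      (NPC.Poly.snd NPC.Poly.id))

end Pool.Agent.U17.PP
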