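import Pool.Agent.NPC.Defs

/-!
# Linear programs, simplex paths, and planar programs
-/

set_option autoImplicit false

namespace Pool.Agent.U17.PP

open Pool.Agent.NPC

/-- the polyhedron `A x ≤ b`, `x ≥ 0` -/
def polyhedron {m n : ℕ} (A : Fin m → Fin n → ℚ) (b : Fin m → ℚ) : Set (Fin n → ℝ) :=
  {x | (∀ i, ∑ j, (A i j : ℝ) * x j ≤ b i) ∧ ∀ j, 0 ≤ x j}

/-- the objective function `c x` -/
noncomputable def obj {n : ℕ} (c : Fin n → ℚ) (x : Fin n → ℝ) : ℝ := ∑ j, (c j : ℝ) * x j

/-- rational vectors as real vectors -/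
noncomputable def re {n : ℕ} (x : Fin n → ℚ) : Fin n → ℝ := fun j => (x j : ℝ)

/-- `x` and `y` are joined by an edge of `P` on which the objective function increases -/
def ImprovingEdge {n : ℕ} (P : Set (Fin n → ℝ)) (c x y : Fin n → ℚ) : Prop :=
  IsExposed ℝ P (segment ℝ (re x) (re y)) ∧ obj c (re x) < obj c (re y)

/-- `P` has an unbounded edge at `x`, in the direction `d`, on which the objective function
increases -/
def UnboundedEdge {n : ℕ} (P : Set (Fin n → ℝ)) (c x d : Fin n → ℚ) : Prop :=
  IsExposed ℝ P {z | ∃ t : ℝ, 0 ≤ t ∧ z = re x + t • re d} ∧ 0 < obj c (re d)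

/-- The vertices `x 0, …, x N` of `P` are a path of improving edges starting at `v`. It ends at a
vertex maximising the objective function (`d = none`), or at a vertex with an unbounded improving
edge in the direction `e` (`d = some e`). -/
def IsSimplexPath {n : ℕ} (P : Set (Fin n → ℝ)) (c v : Fin n → ℚ) (N : ℕ)
    (x : ℕ → Fin n → ℚ) (d : Option (Fin n → ℚ)) : Prop :=
  x 0 = v ∧ (∀ k ≤ N, re (x k) ∈ Set.extremePoints ℝ P) ∧
    (∀ k < N, ImprovingEdge P c (x k) (x (k + 1))) ∧
    (d = none → ∀ y ∈ P, obj c y ≤ obj c (re (x N))) ∧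
    ∀ e, d = some e → UnboundedEdge P c (x N) e

/-- the input `A`, `b`, `c` and the start vertex `v` as a bit string -/
def input {m n : ℕ} (A : Fin m → Fin n → ℚ) (b : Fin m → ℚ) (c v : Fin n → ℚ) : List Bool :=
  bits (List.ofFn fun i => List.ofFn (A i), List.ofFn b, List.ofFn c, List.ofFn v)

/-- the output `x 0, …, x N` and `d` as a bit string -/
def output {n : ℕ} (N : ℕ) (x : ℕ → Fin n → ℚ) (d : Option (Fin n → ℚ)) : List Bool :=
  bits ((List.range (N + 1)).map (fun k => List.ofFn (x k)), d.map List.ofFn)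

/-- `f` is a version of the simplex method for the linear programs in the class `C`: for every
linear program `max c x`, `A x ≤ b`, `x ≥ 0` in `C` and every vertex `v`, the output is a path of
improving edges from `v` to an optimal vertex, or to a vertex with an unbounded improving edge. -/
def Version (C : ∀ m n : ℕ, (Fin m → Fin n → ℚ) → (Fin m → ℚ) → (Fin n → ℚ) → Prop)
    (f : List Bool → List Bool) : Prop :=
  ∀ (m n : ℕ) (A : Fin m → Fin n → ℚ) (b : Fin m → ℚ) (c v : Fin n → ℚ), C m n A b c →
    re v ∈ Set.extremePoints ℝ (polyhedron A b) →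
    ∃ (N : ℕ) (x : ℕ → Fin n → ℚ) (d : Option (Fin n → ℚ)),
      f (input A b c v) = output N x d ∧ IsSimplexPath (polyhedron A b) c v N x d

/-- `p` and `q` are neighbours in the square lattice. -/
def Nbr (p q : ℤ × ℤ) : Prop := |p.1 - q.1| + |p.2 - q.2| = 1

/-- Planar linear programs. The constraints are equations (pairs of opposite inequalities) and
`x ≥ 0`. All coefficients are `0`, `1` or `-1`. The variables and the equations are placed on
different points of the square lattice such that an equation contains only variables on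
neighbouring points. Only one of the equations is not homogeneous, its right side is `1`. The
objective function is the difference of two variables. -/
def Planar (m n : ℕ) (A : Fin m → Fin n → ℚ) (b : Fin m → ℚ) (c : Fin n → ℚ) : Prop :=
  ∃ (pv : Fin n → ℤ × ℤ) (pe : Fin m → ℤ × ℤ) (opp : Fin m → Fin m),
    Function.Injective pv ∧ (∀ i j, pe i ≠ pv j) ∧
    (∀ i, opp i ≠ i ∧ A (opp i) = -A i ∧ b (opp i) = -b i) ∧
    (∀ i i', pe i' = pe i ↔ i' = i ∨ i' = opp i) ∧
    (∀ i j, A i j = 0 ∨ A i j = 1 ∨ A i j = -1) ∧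
    (∀ i j, A i j ≠ 0 → Nbr (pe i) (pv j)) ∧
    (∃ k, b k = 1 ∧ ∀ i, i ≠ k → i ≠ opp k → b i = 0) ∧
    ∃ p q, p ≠ q ∧ ∀ j, c j = (if j = p then 1 else 0) - (if j = q then 1 else 0)

end Pool.Agent.U17.PP
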