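import Pool.Agent.U17.PP.Sgn2
import Pool.Agent.U17.PP.Defs

/-!
# The planar program of a linear program with integer data
-/

set_option autoImplicit false

namespace Pool.Agent.U17.PP

open Finset

/-! ### Lists -/

theorem sum_getElem' {ι : Type} [DecidableEq ι] (L : List ι) (hL : L.Nodup) (f : ι → ℝ) :
    ∑ j : Fin L.length, f L[j] = ∑ v ∈ L.toFinset, f v := by
  rw [List.sum_toFinset _ hL]
  exact Fin.sum_univ_fun_getElem L f

/-- the function on labels which belongs to a vector -/
noncomputable def onL (L : List Lb) (z : Fin L.length → ℝ) (v : Lb) : ℝ :=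
  if h : L.idxOf v < L.length then z ⟨L.idxOf v, h⟩ else 0

theorem onL_getElem {L : List Lb} (hL : L.Nodup) (z : Fin L.length → ℝ) (j : Fin L.length) :
    onL L z L[j] = z j := by
  unfold onL
  have h : L.idxOf L[j] = j := List.Nodup.idxOf_getElem hL _ _
  rw [dif_pos (by rw [h]; exact j.2)]
  congr 1
  exact Fin.ext h

/-! ### Labels -/

section

variable (m n B : ℕ)

/-- number of rows -/
def NR : ℕ := 2 + 2 * GG n B + m + 1

/-- number of columns -/
def NC : ℕ := 2 * GG n B + 2

/-- the column of the constant -/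
def kap : ℕ := 1 + (B + 1) * n

/-- the test for variables -/
def vb (v : Lb) : Bool :=
  decide ((v.1 = 0 ∧ v.2.1 ≤ NR m n B ∧ v.2.2 < NC n B) ∨
    (v.1 = 1 ∧ v.2.1 < NR m n B ∧ v.2.2 < NC n B ∧
      ¬ (v.2.1 < 2 + 2 * GG n B ∧ v.2.2 + 1 = NC n B)) ∨
    (v.1 = 2 ∧ v.2.1 < NR m n B ∧ v.2.2 < NC n B))

/-- the labels of the given variables -/
def firstL : List Lb := (List.range n).map fun l => (0, 0, 1 + (B + 1) * l)

/-- the labels of all variables -/
def VL : List Lb :=
  firstL n B ++ (List.range 3 ×ˢ (List.range (NR m n B + 1) ×ˢ List.range (NC n B))).filter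
    (fun v => vb m n B v && !(decide (v ∈ firstL n B)))

/-- the labels of the equations -/
def EL : List Lb :=
  List.range 3 ×ˢ (List.range (NR m n B) ×ˢ List.range (NC n B)) ++ [(3, 0, kap n B)]

/-- the labels of the inequalities -/
def RL : List (Lb × Bool) := EL m n B ×ˢ [true, false]

/-- the closed rows -/
def clo (i : ℕ) : Bool := decide (i < 2 + 2 * GG n B)

theorem mem_firstL {v : Lb} : v ∈ firstL n B ↔ ∃ l < n, v = (0, 0, 1 + (B + 1) * l) := by
  unfold firstL
  rw [List.mem_map]
  constructor
  · rintro ⟨l, hl, rfl⟩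
    exact ⟨l, List.mem_range.1 hl, rfl⟩
  · rintro ⟨l, hl, rfl⟩
    exact ⟨l, List.mem_range.2 hl, rfl⟩

theorem first_lt {l : ℕ} (hl : l ≤ n) : 1 + (B + 1) * l < NC n B := by
  unfold NC GG
  have : (B + 1) * l ≤ (B + 1) * n := Nat.mul_le_mul_left _ hl
  have h3 : (n + 1) * (B + 1) = (B + 1) * n + (B + 1) := by ring
  omega

theorem mem_VL {v : Lb} : v ∈ VL m n B ↔
    (v.1 = 0 ∧ v.2.1 ≤ NR m n B ∧ v.2.2 < NC n B) ∨
    (v.1 = 1 ∧ v.2.1 < NR m n B ∧ v.2.2 < NC n B ∧
      ¬ (clo n B v.2.1 = true ∧ v.2.2 + 1 = NC n B)) ∨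
    (v.1 = 2 ∧ v.2.1 < NR m n B ∧ v.2.2 < NC n B) := by
  unfold VL
  rw [List.mem_append, List.mem_filter, List.mem_product, List.mem_product, List.mem_range,
    List.mem_range, List.mem_range]
  simp only [vb, clo, Bool.and_eq_true, decide_eq_true_eq, Bool.not_eq_true',
    decide_eq_false_iff_not]
  constructor
  · rintro (h | ⟨-, h, -⟩)
    · obtain ⟨l, hl, rfl⟩ := (mem_firstL n B).1 h
      exact Or.inl ⟨rfl, Nat.zero_le _, first_lt n B hl.le⟩
    · exact h
  · intro h
    by_cases hf : v ∈ firstL n B
    · exact Or.inl hf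
    · refine Or.inr ⟨?_, h, hf⟩
      obtain ⟨k, i, j⟩ := v
      simp only at h ⊢
      omega

theorem isV_VL : IsV (NR m n B) (NC n B) (clo n B) (VL m n B).toFinset :=
  ⟨fun v => by rw [List.mem_toFinset, mem_VL]⟩

theorem nodup_VL : (VL m n B).Nodup := by
  unfold VL
  refine List.Nodup.append ?_ ?_ ?_
  · refine List.Nodup.map ?_ List.nodup_range
    intro l l' h
    simp only [Prod.mk.injEq, true_and] at h
    have : (B + 1) * l = (B + 1) * l' := by omega
    exact Nat.eq_of_mul_eq_mul_left (Nat.succ_pos B) this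
  · exact (List.nodup_range.product (List.nodup_range.product List.nodup_range)).filter _
  · intro v h1 h2
    rw [List.mem_filter] at h2
    simp [h1] at h2

theorem length_firstL : (firstL n B).length = n := by simp [firstL]

theorem n_le : n ≤ (VL m n B).length := by
  unfold VL
  rw [List.length_append, length_firstL]
  omega

/-- the places of the given variables -/
def tau (l : Fin n) : Fin (VL m n B).length := ⟨l, l.2.trans_le (n_le m n B)⟩

theorem VL_tau (l : Fin n) : (VL m n B)[tau m n B l] = (0, 0, 1 + (B + 1) * (l : ℕ)) := by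
  have h1 : (l : ℕ) < (firstL n B).length := by rw [length_firstL]; exact l.2
  have h2 : (VL m n B)[(l : ℕ)]? = some (0, 0, 1 + (B + 1) * (l : ℕ)) := by
    unfold VL
    rw [List.getElem?_append_left h1]
    simp [firstL]
  have h3 := List.getElem?_eq_getElem (l := VL m n B) (i := (l : ℕ)) (l.2.trans_le (n_le m n B))
  rw [h2] at h3
  exact (Option.some.inj h3).symm

theorem mem_EL {e : Lb} : e ∈ EL m n B ↔ IsE (NR m n B) (NC n B) (kap n B) e := by
  unfold EL IsE
  rw [List.mem_append, List.mem_product, List.mem_product, List.mem_range, List.mem_range,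
    List.mem_range, List.mem_singleton]
  constructor
  · rintro (⟨h1, h2, h3⟩ | h)
    · exact Or.inl ⟨by omega, h2, h3⟩
    · exact Or.inr h
  · rintro (⟨h1, h2, h3⟩ | h)
    · exact Or.inl ⟨by omega, h2, h3⟩
    · exact Or.inr h

theorem nodup_EL : (EL m n B).Nodup := by
  unfold EL
  refine List.Nodup.append ?_ (List.nodup_singleton _) ?_
  · exact List.nodup_range.product (List.nodup_range.product List.nodup_range)
  · intro v h1 h2
    rw [List.mem_product, List.mem_range] at h1
    rw [List.mem_singleton] at h2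
    rw [h2] at h1
    simp at h1

theorem nodup_RL : (RL m n B).Nodup := (nodup_EL m n B).product (by simp)

theorem mem_RL {r : Lb × Bool} : r ∈ RL m n B ↔ IsE (NR m n B) (NC n B) (kap n B) r.1 := by
  unfold RL
  rw [List.mem_product, mem_EL]
  simp

end

/-! ### The program -/

section

variable (m n B : ℕ) (a : ℕ → ℕ → ℤ) (co : ℕ → ℤ)

/-- the sign of an inequality -/
def sg (b : Bool) : ℚ := if b = true then 1 else -1

/-- the coefficients -/
def entQ (r : Lb × Bool) (v : Lb) : ℚ := sg r.2 * (ent (Sg m n B a co) (kap n B) r.1 v : ℚ)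

/-- the right sides -/
def rhsQ (r : Lb × Bool) : ℚ := sg r.2 * (rhs r.1 : ℚ)

/-- the objective function -/
def objQ (v : Lb) : ℚ :=
  (if v = (1, NR m n B - 1, NC n B - 1) then 1 else 0) - (if v = (0, 0, NC n B - 1) then 1 else 0)

/-- the matrix -/
def Am (i : Fin (RL m n B).length) (j : Fin (VL m n B).length) : ℚ :=
  entQ m n B a co (RL m n B)[i] (VL m n B)[j]

/-- the right side -/
def bm (i : Fin (RL m n B).length) : ℚ := rhsQ (RL m n B)[i]

/-- the objective function -/
def cm (j : Fin (VL m n B).length) : ℚ := objQ m n B (VL m n B)[j]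

theorem planar : Planar _ _ (Am m n B a co) (bm m n B) (cm m n B) := by
  classical
  have hR := nodup_RL m n B
  have hV := nodup_VL m n B
  -- the opposite inequality
  have hopp : ∀ i : Fin (RL m n B).length, ∃ i' : Fin (RL m n B).length,
      (RL m n B)[i'] = ((RL m n B)[i].1, !(RL m n B)[i].2) := by
    intro i
    have h1 : (RL m n B)[i] ∈ RL m n B := List.getElem_mem _
    have h2 : ((RL m n B)[i].1, !(RL m n B)[i].2) ∈ RL m n B := by
      rw [mem_RL] at h1 ⊢
      exact h1
    obtain ⟨k, hk, h3⟩ := List.getElem_of_mem h2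
    exact ⟨⟨k, hk⟩, h3⟩
  choose opp hopp using hopp
  have hinj : ∀ i i' : Fin (RL m n B).length, (RL m n B)[i] = (RL m n B)[i'] → i = i' := by
    intro i i' h
    exact Fin.ext ((hR.getElem_inj_iff).1 h)
  have hisE : ∀ i : Fin (RL m n B).length, (RL m n B)[i].1.1 ≤ 2 ∨
      (RL m n B)[i].1 = (3, 0, kap n B) := by
    intro i
    have h1 : (RL m n B)[i] ∈ RL m n B := List.getElem_mem _
    rw [mem_RL] at h1
    rcases h1 with h1 | h1
    · exact Or.inl h1.1
    · exact Or.inr h1
  have hV2 : ∀ j : Fin (VL m n B).length, (VL m n B)[j].1 ≤ 2 := by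
    intro j
    have h1 : (VL m n B)[j] ∈ VL m n B := List.getElem_mem _
    rw [mem_VL] at h1
    omega
  refine ⟨fun j => posV (VL m n B)[j], fun i => posE (kap n B) (RL m n B)[i].1, opp, ?_, ?_, ?_,
    ?_, ?_, ?_, ?_, ?_⟩
  · intro j j' h
    have h1 := posV_inj (hV2 j) (hV2 j') h
    exact Fin.ext ((hV.getElem_inj_iff).1 h1)
  · intro i j
    exact posE_ne_posV _ _ _
  · intro i
    refine ⟨?_, ?_, ?_⟩
    · intro h
      have h1 := hopp i
      rw [h] at h1
      have h2 := congrArg Prod.snd h1
      simp at h2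
    · funext j
      show entQ m n B a co (RL m n B)[opp i] _ = -entQ m n B a co (RL m n B)[i] _
      rw [hopp i]
      unfold entQ sg
      cases (RL m n B)[i].2 <;> simp
    · show rhsQ (RL m n B)[opp i] = -rhsQ (RL m n B)[i]
      rw [hopp i]
      unfold rhsQ sg
      cases (RL m n B)[i].2 <;> simp
  · intro i i'
    constructor
    · intro h
      have h1 := posE_inj _ (hisE i') (hisE i) h
      by_cases h2 : (RL m n B)[i'].2 = (RL m n B)[i].2
      · left
        exact hinj _ _ (Prod.ext h1 h2)
      · right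
        refine hinj _ _ ?_
        rw [hopp i]
        refine Prod.ext h1 ?_
        show (RL m n B)[i'].2 = !(RL m n B)[i].2
        cases h3 : (RL m n B)[i'].2 <;> cases h4 : (RL m n B)[i].2 <;> simp_all
    · rintro (rfl | rfl)
      · rfl
      · show posE _ (RL m n B)[opp i].1 = _
        rw [hopp i]
  · intro i j
    show entQ m n B a co (RL m n B)[i] _ = 0 ∨ entQ m n B a co (RL m n B)[i] _ = 1 ∨
      entQ m n B a co (RL m n B)[i] _ = -1
    unfold entQ sg
    rcases ent_vals (Sg m n B a co) (kap n B) (Sg_vals m n B a co) (RL m n B)[i].1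
      (VL m n B)[j] with h | h | h <;> rw [h] <;> split_ifs <;> simp
  · intro i j h
    refine nbr_of_ent (Sg m n B a co) (kap n B) (hisE i) ?_
    intro h0
    apply h
    show entQ m n B a co (RL m n B)[i] _ = 0
    unfold entQ
    rw [h0]
    simp
  · have h2 : (((3, 0, kap n B) : Lb), true) ∈ RL m n B := by
      rw [mem_RL]
      exact Or.inr rfl
    obtain ⟨k, hk, h3⟩ := List.getElem_of_mem h2
    refine ⟨⟨k, hk⟩, ?_, ?_⟩
    · show rhsQ (RL m n B)[k] = 1
      rw [h3]
      simp [rhsQ, sg, rhs]
    · intro i h4 h5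
      show rhsQ (RL m n B)[i] = 0
      have h6 : (RL m n B)[i].1 ≠ (3, 0, kap n B) := by
        intro h6
        cases h7 : (RL m n B)[i].2
        · apply h5
          refine hinj _ _ ?_
          rw [hopp ⟨k, hk⟩]
          show (RL m n B)[i] = ((RL m n B)[k].1, !(RL m n B)[k].2)
          rw [h3]
          exact Prod.ext h6 h7
        · apply h4
          refine hinj _ _ ?_
          show (RL m n B)[i] = (RL m n B)[k]
          rw [h3]
          exact Prod.ext h6 h7
      have h8 : (RL m n B)[i].1.1 ≤ 2 := by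
        rcases hisE i with h | h
        · exact h
        · exact absurd h h6
      unfold rhsQ rhs
      rw [if_neg (by omega)]
      simp
  · have hG : 0 < GG n B := Nat.mul_pos (Nat.succ_pos n) (Nat.succ_pos B)
    have hp : ((1, NR m n B - 1, NC n B - 1) : Lb) ∈ VL m n B := by
      rw [mem_VL]
      right
      left
      refine ⟨rfl, ?_, ?_, ?_⟩
      · show NR m n B - 1 < NR m n B
        unfold NR; omega
      · show NC n B - 1 < NC n B
        unfold NC; omega
      · rintro ⟨h1, -⟩
        simp only [clo, decide_eq_true_eq] at h1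
        unfold NR at h1
        omega
    have hq : ((0, 0, NC n B - 1) : Lb) ∈ VL m n B := by
      rw [mem_VL]
      left
      refine ⟨rfl, Nat.zero_le _, ?_⟩
      show NC n B - 1 < NC n B
      unfold NC; omega
    obtain ⟨p, hp1, hp2⟩ := List.getElem_of_mem hp
    obtain ⟨q, hq1, hq2⟩ := List.getElem_of_mem hq
    refine ⟨⟨p, hp1⟩, ⟨q, hq1⟩, ?_, ?_⟩
    · intro h
      have h1 : p = q := congrArg Fin.val h
      subst h1
      rw [hp2] at hq2
      simp at hq2
    · intro j
      show objQ m n B (VL m n B)[j] = _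
      unfold objQ
      congr 1
      · refine if_congr ?_ rfl rfl
        constructor
        · intro h
          exact Fin.ext ((hV.getElem_inj_iff (hi := j.2) (hj := hp1)).1 (h.trans hp2.symm))
        · rintro rfl
          exact hp2
      · refine if_congr ?_ rfl rfl
        constructor
        · intro h
          exact Fin.ext ((hV.getElem_inj_iff (hi := j.2) (hj := hq1)).1 (h.trans hq2.symm))
        · rintro rfl
          exact hq2

end

end Pool.Agent.U17.PP
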