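import Mathlib

/-!
# The layout of a sign matrix in the plane
-/

set_option autoImplicit false

namespace Pool.Agent.U17.PP

/-- labels of variables and of equations: kind, row, column -/
abbrev Lb : Type := ℕ × ℕ × ℕ

section

variable (S : ℕ → ℕ → ℤ) (κ : ℕ)

/-- first term of the equation `e` -/
def t1 (e : Lb) : ℤ × Lb :=
  if e.1 = 0 then (1, (2, e.2.1, e.2.2))
  else if e.1 = 1 then (if S e.2.1 e.2.2 = 0 then -1 else 1, (2, e.2.1, e.2.2))
  else if e.1 = 2 then (-1, (2, e.2.1, e.2.2))
  else (0, (2, e.2.1, e.2.2))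

/-- second term of the equation `e` -/
def t2 (e : Lb) : ℤ × Lb :=
  if e.1 = 0 then (if e.2.2 = 0 then 0 else -1, (1, e.2.1, e.2.2 - 1))
  else if e.1 = 1 then
    (if e.2.2 = 0 then 0 else if S e.2.1 e.2.2 = 0 then 1 else -1, (1, e.2.1, e.2.2 - 1))
  else if e.1 = 2 then (1, (1, e.2.1, e.2.2))
  else (0, (1, e.2.1, e.2.2))

/-- third term of the equation `e` -/
def t3 (e : Lb) : ℤ × Lb :=
  if e.1 = 0 then (if S e.2.1 e.2.2 = 0 then -1 else S e.2.1 e.2.2, (0, e.2.1, e.2.2))
  else if e.1 = 1 then (if S e.2.1 e.2.2 = 0 then 1 else S e.2.1 e.2.2, (0, e.2.1 + 1, e.2.2))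
  else if e.1 = 2 then (if S e.2.1 e.2.2 = 0 then 1 else 0, (0, e.2.1, e.2.2))
  else (1, (0, 0, κ))

/-- the coefficient of the variable `v` in the equation `e` -/
def ent (e v : Lb) : ℤ :=
  (if v = (t1 S e).2 then (t1 S e).1 else 0) + (if v = (t2 S e).2 then (t2 S e).1 else 0) +
    (if v = (t3 S κ e).2 then (t3 S κ e).1 else 0)

/-- the right side of the equation `e` -/
def rhs (e : Lb) : ℤ := if e.1 = 3 then 1 else 0

/-- the position of a variable -/
def posV (v : Lb) : ℤ × ℤ :=
  if v.1 = 0 then (2 * (v.2.1 + v.2.2) - 1, 2 * ((v.2.2 : ℤ) - v.2.1) + 1)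
  else if v.1 = 1 then (2 * (v.2.1 + v.2.2) + 1, 2 * ((v.2.2 : ℤ) - v.2.1) + 1)
  else (2 * (v.2.1 + v.2.2), 2 * ((v.2.2 : ℤ) - v.2.1))

/-- the position of an equation -/
def posE (e : Lb) : ℤ × ℤ :=
  if e.1 = 0 then (2 * (e.2.1 + e.2.2) - 1, 2 * ((e.2.2 : ℤ) - e.2.1))
  else if e.1 = 1 then (2 * (e.2.1 + e.2.2), 2 * ((e.2.2 : ℤ) - e.2.1) - 1)
  else if e.1 = 2 then (2 * (e.2.1 + e.2.2), 2 * ((e.2.2 : ℤ) - e.2.1) + 1)
  else (2 * κ - 1, 2 * κ + 2)

theorem posV_inj {v w : Lb} (hv : v.1 ≤ 2) (hw : w.1 ≤ 2) (h : posV v = posV w) : v = w := by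
  obtain ⟨k, i, j⟩ := v
  obtain ⟨k', i', j'⟩ := w
  simp only at hv hw
  interval_cases k <;> interval_cases k' <;> simp [posV] at h ⊢ <;> omega

theorem posE_inj {e f : Lb} (he : e.1 ≤ 2 ∨ e = (3, 0, κ)) (hf : f.1 ≤ 2 ∨ f = (3, 0, κ))
    (h : posE κ e = posE κ f) : e = f := by
  rcases he with he | rfl
  · rcases hf with hf | rfl
    · obtain ⟨k, i, j⟩ := e
      obtain ⟨k', i', j'⟩ := f
      simp only at he hf
      interval_cases k <;> interval_cases k' <;> simp [posE] at h ⊢ <;> omega
    · obtain ⟨k, i, j⟩ := e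
      simp only at he
      interval_cases k <;> simp [posE] at h ⊢ <;> omega
  · rcases hf with hf | rfl
    · obtain ⟨k', i', j'⟩ := f
      simp only at hf
      interval_cases k' <;> simp [posE] at h ⊢ <;> omega
    · rfl

theorem posE_ne_posV (e v : Lb) : posE κ e ≠ posV v := by
  intro h
  unfold posE posV at h
  split_ifs at h <;> simp only [Prod.mk.injEq] at h <;> omega

theorem nbr_of_ent {e v : Lb} (he : e.1 ≤ 2 ∨ e = (3, 0, κ)) (h : ent S κ e v ≠ 0) :
    |(posE κ e).1 - (posV v).1| + |(posE κ e).2 - (posV v).2| = 1 := by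
  unfold ent at h
  rcases he with he | rfl
  · obtain ⟨k, i, j⟩ := e
    simp only at he
    by_cases h1 : v = (t1 S (k, i, j)).2
    · subst h1
      interval_cases k <;> simp [posE, posV, t1] <;> ring_nf <;> simp
    · rw [if_neg h1] at h
      by_cases h2 : v = (t2 S (k, i, j)).2
      · rw [if_pos h2] at h
        subst h2
        have h3 : (t2 S (k, i, j)).1 ≠ 0 := by
          intro h0
          rw [h0, if_neg] at h
          · simp at h
          · intro h4
            have h5 := congrArg Prod.fst h4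
            interval_cases k <;> simp [t2, t3] at h5
        interval_cases k
        · have hj : j ≠ 0 := by
            rintro rfl
            simp [t2] at h3
          obtain ⟨j, rfl⟩ := Nat.exists_eq_succ_of_ne_zero hj
          simp [posE, posV, t2]
          ring_nf
          simp
        · have hj : j ≠ 0 := by
            rintro rfl
            simp [t2] at h3
          obtain ⟨j, rfl⟩ := Nat.exists_eq_succ_of_ne_zero hj
          simp [posE, posV, t2]
          ring_nf
          simp
        · simp [posE, posV, t2]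
      · rw [if_neg h2] at h
        by_cases h3 : v = (t3 S κ (k, i, j)).2
        · subst h3
          interval_cases k
          · simp [posE, posV, t3]
          · simp [posE, posV, t3]
            ring_nf
            simp
          · simp [posE, posV, t3]
        · rw [if_neg h3] at h
          simp at h
  · by_cases h3 : v = (0, 0, κ)
    · subst h3
      simp [posE, posV]
      try ring_nf
      try simp
    · exfalso
      apply h
      simp [t1, t2, t3, h3]

theorem ent_vals (hS : ∀ i j, S i j = 0 ∨ S i j = 1 ∨ S i j = -1) (e v : Lb) :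
    ent S κ e v = 0 ∨ ent S κ e v = 1 ∨ ent S κ e v = -1 := by
  obtain ⟨k, i, j⟩ := e
  have k1 : (t1 S (k, i, j)).2.1 = 2 := by unfold t1; split_ifs <;> rfl
  have k2 : (t2 S (k, i, j)).2.1 = 1 := by unfold t2; split_ifs <;> rfl
  have k3 : (t3 S κ (k, i, j)).2.1 = 0 := by unfold t3; split_ifs <;> rfl
  have c1 : (t1 S (k, i, j)).1 = 0 ∨ (t1 S (k, i, j)).1 = 1 ∨ (t1 S (k, i, j)).1 = -1 := by
    unfold t1; split_ifs <;> simp
  have c2 : (t2 S (k, i, j)).1 = 0 ∨ (t2 S (k, i, j)).1 = 1 ∨ (t2 S (k, i, j)).1 = -1 := by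
    unfold t2; split_ifs <;> simp
  have c3 : (t3 S κ (k, i, j)).1 = 0 ∨ (t3 S κ (k, i, j)).1 = 1 ∨
      (t3 S κ (k, i, j)).1 = -1 := by
    unfold t3; split_ifs <;> first | exact hS _ _ | simp
  unfold ent
  by_cases h1 : v = (t1 S (k, i, j)).2
  · rw [if_pos h1, if_neg, if_neg]
    · simpa using c1
    · intro h; rw [h] at h1; have := congrArg Prod.fst h1; omega
    · intro h; rw [h] at h1; have := congrArg Prod.fst h1; omega
  · rw [if_neg h1]
    by_cases h2 : v = (t2 S (k, i, j)).2
    · rw [if_pos h2, if_neg]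
      · simpa using c2
      · intro h; rw [h] at h2; have := congrArg Prod.fst h2; omega
    · rw [if_neg h2]
      split_ifs
      · simpa using c3
      · simp

end

/-! ### Solutions -/

section

variable {𝕜 : Type} [Field 𝕜]

/-- the value of a row before the column `j` -/
def Wv (S : ℕ → ℕ → ℤ) (y : ℕ → 𝕜) (i j : ℕ) : 𝕜 := -∑ j' ∈ Finset.range j, (S i j' : 𝕜) * y j'

/-- the values of all variables -/
def Fv (S : ℕ → ℕ → ℤ) (y : ℕ → 𝕜) (v : Lb) : 𝕜 :=
  if v.1 = 0 then y v.2.2
  else if v.1 = 1 then Wv S y v.2.1 (v.2.2 + 1)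
  else if S v.2.1 v.2.2 = 0 then Wv S y v.2.1 v.2.2 + y v.2.2
  else Wv S y v.2.1 (v.2.2 + 1)

theorem Wv_succ (S : ℕ → ℕ → ℤ) (y : ℕ → 𝕜) (i j : ℕ) :
    Wv S y i (j + 1) = Wv S y i j - (S i j : 𝕜) * y j := by
  unfold Wv
  rw [Finset.sum_range_succ]
  ring

@[simp] theorem Wv_zero (S : ℕ → ℕ → ℤ) (y : ℕ → 𝕜) (i : ℕ) : Wv S y i 0 = 0 := by simp [Wv]

/-- the labels of the variables -/
structure IsV (R C : ℕ) (cl : ℕ → Bool) (Vs : Finset Lb) : Prop where
  mem : ∀ v : Lb, v ∈ Vs ↔ (v.1 = 0 ∧ v.2.1 ≤ R ∧ v.2.2 < C) ∨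
    (v.1 = 1 ∧ v.2.1 < R ∧ v.2.2 < C ∧ ¬ (cl v.2.1 = true ∧ v.2.2 + 1 = C)) ∨
    (v.1 = 2 ∧ v.2.1 < R ∧ v.2.2 < C)

/-- the value of a variable, zero if it is absent -/
def z0 (Vs : Finset Lb) (z : Lb → 𝕜) (v : Lb) : 𝕜 := if v ∈ Vs then z v else 0

theorem sum_ent (S : ℕ → ℕ → ℤ) (κ : ℕ) (Vs : Finset Lb) (z : Lb → 𝕜) (e : Lb) :
    ∑ v ∈ Vs, (ent S κ e v : 𝕜) * z v =
      ((t1 S e).1 : 𝕜) * z0 Vs z (t1 S e).2 + ((t2 S e).1 : 𝕜) * z0 Vs z (t2 S e).2 +
        ((t3 S κ e).1 : 𝕜) * z0 Vs z (t3 S κ e).2 := by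
  have key : ∀ (a : ℤ) (w : Lb), ∑ v ∈ Vs, ((if v = w then a else 0 : ℤ) : 𝕜) * z v =
      (a : 𝕜) * z0 Vs z w := by
    intro a w
    have h1 : ∀ v ∈ Vs, ((if v = w then a else 0 : ℤ) : 𝕜) * z v =
        if v = w then (a : 𝕜) * z w else 0 := by
      intro v _
      split_ifs with h
      · rw [h]
      · simp
    rw [Finset.sum_congr rfl h1, Finset.sum_ite_eq' Vs w]
    unfold z0
    split_ifs <;> simp
  rw [← key, ← key, ← key, ← Finset.sum_add_distrib, ← Finset.sum_add_distrib]
  refine Finset.sum_congr rfl fun v _ => ?_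
  unfold ent
  push_cast
  ring

variable {R C κ : ℕ} {cl : ℕ → Bool} {Vs : Finset Lb} {S : ℕ → ℕ → ℤ}

/-- the labels of the equations -/
def IsE (R C κ : ℕ) (e : Lb) : Prop := (e.1 ≤ 2 ∧ e.2.1 < R ∧ e.2.2 < C) ∨ e = (3, 0, κ)

theorem sol_of (hV : IsV R C cl Vs) (hκ : κ < C) {y : ℕ → 𝕜} (hy : y κ = 1)
    (hcl : ∀ i < R, cl i = true → Wv S y i C = 0) {e : Lb} (he : IsE R C κ e) :
    ∑ v ∈ Vs, (ent S κ e v : 𝕜) * Fv S y v = rhs e := by
  have z_0 : ∀ i j, i ≤ R → j < C → z0 Vs (Fv S y) (0, i, j) = y j := by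
    intro i j hi hj
    rw [z0, if_pos ((hV.mem _).2 (Or.inl ⟨rfl, hi, hj⟩))]
    simp [Fv]
  have z_1 : ∀ i j, i < R → j < C → z0 Vs (Fv S y) (1, i, j) = Wv S y i (j + 1) := by
    intro i j hi hj
    by_cases hc : cl i = true ∧ j + 1 = C
    · rw [z0, if_neg]
      · rw [hc.2, hcl i hi hc.1]
      · intro h
        rw [hV.mem] at h
        simp at h
        exact h.2.2 hc.1 hc.2
    · rw [z0, if_pos ((hV.mem _).2 (Or.inr (Or.inl ⟨rfl, hi, hj, hc⟩)))]
      simp [Fv]
  have z_2 : ∀ i j, i < R → j < C → z0 Vs (Fv S y) (2, i, j) =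
      if S i j = 0 then Wv S y i j + y j else Wv S y i (j + 1) := by
    intro i j hi hj
    rw [z0, if_pos ((hV.mem _).2 (Or.inr (Or.inr ⟨rfl, hi, hj⟩)))]
    simp [Fv]
  have z_1' : ∀ i j, i < R → j < C → j ≠ 0 → z0 Vs (Fv S y) (1, i, j - 1) = Wv S y i j := by
    intro i j hi hj h0
    obtain ⟨j, rfl⟩ := Nat.exists_eq_succ_of_ne_zero h0
    exact z_1 i j hi (by omega)
  rw [sum_ent]
  rcases he with ⟨he, hi, hj⟩ | rfl
  · obtain ⟨k, i, j⟩ := e
    simp only at he hi hj
    have hW := Wv_succ S y i j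
    interval_cases k
    · simp only [t1, t2, t3, rhs, if_true]
      rw [z_2 i j hi hj, z_0 i j hi.le hj]
      by_cases h0 : j = 0
      · subst h0
        simp only [if_true]
        by_cases hS : S i 0 = 0
        · simp [hS]
        · simp only [hS, if_false]
          rw [hW]
          simp
      · rw [z_1' i j hi hj h0, if_neg h0]
        by_cases hS : S i j = 0
        · simp [hS]
        · simp only [hS, if_false]
          rw [hW]
          push_cast
          ring
    · simp only [t1, t2, t3, rhs]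
      simp only [one_ne_zero, if_false, if_true]
      rw [z_2 i j hi hj, z_0 (i + 1) j hi hj]
      by_cases h0 : j = 0
      · subst h0
        by_cases hS : S i 0 = 0
        · simp [hS]
        · simp only [hS, if_false, if_true]
          rw [hW]
          push_cast
          simp
      · rw [z_1' i j hi hj h0]
        by_cases hS : S i j = 0
        · simp [hS, h0]
        · simp only [hS, h0, if_false]
          rw [hW]
          push_cast
          ring
    · simp only [t1, t2, t3, rhs]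
      simp only [OfNat.ofNat_ne_zero, OfNat.ofNat_ne_one, if_false, if_true]
      rw [z_2 i j hi hj, z_0 i j hi.le hj, z_1 i j hi hj]
      by_cases hS : S i j = 0
      · rw [hW]
        simp [hS]
      · simp [hS]
  · simp only [t1, t2, t3, rhs]
    simp [z_0 0 κ (Nat.zero_le _) hκ, hy]

/-- A solution is determined by the values of the variables in the top row. -/
theorem sol_eq (hV : IsV R C cl Vs) (hκ : κ < C) {z : Lb → 𝕜}
    (hz : ∀ e, IsE R C κ e → ∑ v ∈ Vs, (ent S κ e v : 𝕜) * z v = rhs e)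
    (hS : ∀ i j, S i j = 0 ∨ S i j = 1 ∨ S i j = -1) :
    (∀ v ∈ Vs, z v = Fv S (fun j => z (0, 0, j)) v) ∧ z (0, 0, κ) = 1 ∧
      ∀ i < R, cl i = true → Wv S (fun j => z (0, 0, j)) i C = 0 := by
  have z_0 : ∀ i j, i ≤ R → j < C → z0 Vs z (0, i, j) = z (0, i, j) := by
    intro i j hi hj
    rw [z0, if_pos ((hV.mem _).2 (Or.inl ⟨rfl, hi, hj⟩))]
  have z_2 : ∀ i j, i < R → j < C → z0 Vs z (2, i, j) = z (2, i, j) := by
    intro i j hi hj
    rw [z0, if_pos ((hV.mem _).2 (Or.inr (Or.inr ⟨rfl, hi, hj⟩)))]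
  have hSne : ∀ i j, S i j ≠ 0 → (S i j : 𝕜) ≠ 0 := by
    intro i j h
    rcases hS i j with h1 | h1 | h1
    · exact absurd h1 h
    · rw [h1]; simp
    · rw [h1]; simp
  -- the value before the column `j`
  have cell : ∀ i j, i < R → j < C →
      z (2, i, j) = (if S i j = 0 then (if j = 0 then 0 else z0 Vs z (1, i, j - 1)) + z (0, i, j)
        else (if j = 0 then 0 else z0 Vs z (1, i, j - 1)) - (S i j : 𝕜) * z (0, i, j)) ∧
      z (0, i + 1, j) = z (0, i, j) ∧
      z0 Vs z (1, i, j) =
        (if j = 0 then 0 else z0 Vs z (1, i, j - 1)) - (S i j : 𝕜) * z (0, i, j) := by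
    intro i j hi hj
    have e0 := hz (0, i, j) (Or.inl ⟨by norm_num, hi, hj⟩)
    have e1 := hz (1, i, j) (Or.inl ⟨by norm_num, hi, hj⟩)
    have e2 := hz (2, i, j) (Or.inl ⟨by norm_num, hi, hj⟩)
    rw [sum_ent] at e0 e1 e2
    simp only [t1, t2, t3, rhs, if_true] at e0
    simp only [t1, t2, t3, rhs] at e1 e2
    simp only [one_ne_zero, if_false, if_true] at e1
    simp only [OfNat.ofNat_ne_zero, OfNat.ofNat_ne_one, if_false, if_true] at e2
    rw [z_2 i j hi hj, z_0 i j hi.le hj] at e0 e2
    rw [z_2 i j hi hj, z_0 (i + 1) j hi hj] at e1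
    set tm := (if j = 0 then 0 else z0 Vs z (1, i, j - 1)) with htm
    by_cases hS0 : S i j = 0
    · simp only [hS0, if_true] at e0 e1 e2 ⊢
      have f0 : z (2, i, j) = tm + z (0, i, j) := by
        rw [htm]
        by_cases h0 : j = 0
        · simp only [h0, if_true] at e0 ⊢
          push_cast at e0
          simp at e0
          linear_combination e0
        · simp only [h0, if_false] at e0 ⊢
          push_cast at e0
          simp at e0
          linear_combination e0
      have f1 : z (0, i + 1, j) = z (2, i, j) - tm := by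
        rw [htm]
        by_cases h0 : j = 0
        · simp only [h0, if_true] at e1 ⊢
          push_cast at e1
          simp at e1
          linear_combination e1
        · simp only [h0, if_false] at e1 ⊢
          push_cast at e1
          simp at e1
          linear_combination e1
      have f2 : z0 Vs z (1, i, j) = z (2, i, j) - z (0, i, j) := by
        push_cast at e2
        simp at e2
        linear_combination e2
      refine ⟨f0, ?_, ?_⟩
      · rw [f1, f0]; ring
      · rw [f2, f0]; push_cast; ring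
    · simp only [hS0, if_false] at e0 e1 e2 ⊢
      have f0 : z (2, i, j) = tm - (S i j : 𝕜) * z (0, i, j) := by
        rw [htm]
        by_cases h0 : j = 0
        · simp only [h0, if_true] at e0 ⊢
          push_cast at e0
          simp at e0
          linear_combination e0
        · simp only [h0, if_false] at e0 ⊢
          push_cast at e0
          simp at e0
          linear_combination e0
      have f1 : (S i j : 𝕜) * z (0, i + 1, j) = tm - z (2, i, j) := by
        rw [htm]
        by_cases h0 : j = 0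
        · simp only [h0, if_true] at e1 ⊢
          push_cast at e1
          simp at e1
          linear_combination e1
        · simp only [h0, if_false] at e1 ⊢
          push_cast at e1
          simp at e1
          linear_combination e1
      have f2 : z0 Vs z (1, i, j) = z (2, i, j) := by
        push_cast at e2
        simp at e2
        linear_combination e2
      refine ⟨f0, ?_, ?_⟩
      · rw [f0] at f1
        have : (S i j : 𝕜) * z (0, i + 1, j) = (S i j : 𝕜) * z (0, i, j) := by
          rw [f1]; ring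
        exact mul_left_cancel₀ (hSne i j hS0) this
      · rw [f2, f0]
  have col : ∀ i j, i ≤ R → j < C → z (0, i, j) = z (0, 0, j) := by
    intro i j hi hj
    induction i with
    | zero => rfl
    | succ i ih => rw [(cell i j hi hj).2.1, ih (by omega)]
  have row : ∀ i j, i < R → j < C →
      z0 Vs z (1, i, j) = Wv S (fun j => z (0, 0, j)) i (j + 1) := by
    intro i j hi
    induction j with
    | zero =>
      intro hj
      rw [(cell i 0 hi hj).2.2, Wv_succ, col i 0 hi.le hj]
      simp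
    | succ j ih =>
      intro hj
      rw [(cell i (j + 1) hi hj).2.2, Wv_succ, col i (j + 1) hi.le hj, if_neg (by omega),
        Nat.add_sub_cancel, ih (by omega)]
  have rowm : ∀ i j, i < R → j < C → (if j = 0 then 0 else z0 Vs z (1, i, j - 1)) =
      Wv S (fun j => z (0, 0, j)) i j := by
    intro i j hi hj
    split_ifs with h0
    · rw [h0, Wv_zero]
    · obtain ⟨j, rfl⟩ := Nat.exists_eq_succ_of_ne_zero h0
      exact row i j hi (by omega)
  refine ⟨?_, ?_, ?_⟩
  · rintro ⟨k, i, j⟩ hv
    have hv' := (hV.mem _).1 hv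
    simp only at hv'
    rcases hv' with ⟨rfl, hi, hj⟩ | ⟨rfl, hi, hj, -⟩ | ⟨rfl, hi, hj⟩
    · rw [col i j hi hj]
      simp [Fv]
    · have h1 := row i j hi hj
      rw [z0, if_pos hv] at h1
      rw [h1]
      simp [Fv]
    · rw [(cell i j hi hj).1, rowm i j hi hj, col i j hi.le hj]
      simp only [Fv, OfNat.ofNat_ne_zero, OfNat.ofNat_ne_one, if_false]
      rw [Wv_succ]
  · have h3 := hz (3, 0, κ) (Or.inr rfl)
    rw [sum_ent] at h3
    simp only [t1, t2, t3, rhs] at h3
    simp [z_0 0 κ (Nat.zero_le _) hκ] at h3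
    exact h3
  · intro i hi hc
    have hC : 0 < C := by omega
    have h1 := row i (C - 1) hi (by omega)
    rw [z0, if_neg] at h1
    · rw [show C - 1 + 1 = C by omega] at h1
      exact h1.symm
    · intro h
      rw [hV.mem] at h
      simp at h
      exact h.2.2 hc (by omega)

end

end Pool.Agent.U17.PP
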