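import Pool.Agent.U17.PP.Defs

/-!
# Transfer of simplex paths along affine isomorphisms
-/

set_option autoImplicit false

namespace Pool.Agent.U17.PP

section

variable {n N : ℕ} {P : Set (Fin n → ℝ)} {Q : Set (Fin N → ℝ)}
  {Φ : (Fin n → ℝ) →ᵃ[ℝ] (Fin N → ℝ)}

/-- vertices are mapped to vertices -/
theorem ext_image (hΦ : Function.Injective Φ) (hQ : Φ '' P = Q) {v : Fin n → ℝ}
    (hv : v ∈ Set.extremePoints ℝ P) : Φ v ∈ Set.extremePoints ℝ Q := by
  subst hQ
  rw [mem_extremePoints] at hv ⊢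
  refine ⟨⟨v, hv.1, rfl⟩, ?_⟩
  rintro _ ⟨x, hx, rfl⟩ _ ⟨y, hy, rfl⟩ h
  have h1 : v ∈ openSegment ℝ x y := by
    have h2 : Φ v ∈ Φ '' openSegment ℝ x y := by rw [image_openSegment]; exact h
    obtain ⟨w, hw, hwv⟩ := h2
    rw [← hΦ hwv]
    exact hw
  obtain ⟨h3, h4⟩ := hv.2 x hx y hy h1
  exact ⟨by rw [h3], by rw [h4]⟩

theorem ext_preimage (hΦ : Function.Injective Φ) (hQ : Φ '' P = Q) {v : Fin n → ℝ}
    (hv : Φ v ∈ Set.extremePoints ℝ Q) : v ∈ Set.extremePoints ℝ P := by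
  subst hQ
  rw [mem_extremePoints] at hv ⊢
  obtain ⟨⟨w, hw, hwv⟩, h⟩ := hv
  rw [← hΦ hwv]
  refine ⟨hw, fun x hx y hy hxy => ?_⟩
  have h1 : Φ v ∈ openSegment ℝ (Φ x) (Φ y) := by
    rw [← image_openSegment, ← hwv]
    exact ⟨w, hxy, rfl⟩
  obtain ⟨h3, h4⟩ := h _ ⟨x, hx, rfl⟩ _ ⟨y, hy, rfl⟩ h1
  exact ⟨hΦ (h3.trans hwv.symm), hΦ (h4.trans hwv.symm)⟩

theorem exposed_preimage (hΦ : Function.Injective Φ) (hQ : Φ '' P = Q) {F : Set (Fin n → ℝ)}
    (hF : IsExposed ℝ Q (Φ '' F)) : IsExposed ℝ P F := by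
  subst hQ
  intro hne
  obtain ⟨l, hl⟩ := hF (hne.image _)
  have key : ∀ x y : Fin n → ℝ, l (Φ y) ≤ l (Φ x) ↔
      (l.comp Φ.linear.toContinuousLinearMap) y ≤ (l.comp Φ.linear.toContinuousLinearMap) x := by
    intro x y
    have h1 : ∀ z : Fin n → ℝ, l (Φ z) = l (Φ.linear z) + l (Φ 0) := by
      intro z
      have h2 : Φ z = Φ.linear z + Φ 0 := by
        have := Φ.map_vadd 0 z
        simpa using this
      rw [h2, map_add]
    rw [h1 x, h1 y, add_le_add_iff_right]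
    rfl
  refine ⟨l.comp Φ.linear.toContinuousLinearMap, ?_⟩
  ext x
  constructor
  · intro hx
    have h1 : Φ x ∈ Φ '' F := ⟨x, hx, rfl⟩
    rw [hl] at h1
    obtain ⟨⟨w, hw, hwx⟩, h2⟩ := h1
    refine ⟨by rw [← hΦ hwx]; exact hw, fun y hy => ?_⟩
    rw [← key]
    exact h2 _ ⟨y, hy, rfl⟩
  · rintro ⟨hx, h2⟩
    have h1 : Φ x ∈ Φ '' F := by
      rw [hl]
      refine ⟨⟨x, hx, rfl⟩, ?_⟩
      rintro _ ⟨y, hy, rfl⟩
      rw [key]
      exact h2 y hy
    obtain ⟨w, hw, hwx⟩ := h1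
    rw [← hΦ hwx]
    exact hw

/-- A path of improving edges of the image is the image of a path of improving edges. -/
theorem path_transfer (hΦ : Function.Injective Φ) (hQ : Φ '' P = Q) (τ : Fin n → Fin N)
    (hτ : ∀ x l, Φ x (τ l) = x l) {c : Fin n → ℚ} {c' : Fin N → ℚ} {D : ℝ} (hD : 0 < D)
    (hobj : ∀ x, obj c' (Φ x) = D * obj c x) {v : Fin n → ℚ} {v' : Fin N → ℚ}
    (hv : re v' = Φ (re v)) {K : ℕ} {x' : ℕ → Fin N → ℚ} {d' : Option (Fin N → ℚ)}
    (h : IsSimplexPath Q c' v' K x' d') :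
    IsSimplexPath P c v K (fun k l => x' k (τ l)) (d'.map fun e l => e (τ l)) := by
  obtain ⟨h0, hext, hedge, hopt, hray⟩ := h
  have hback : ∀ z : Fin N → ℚ, re z ∈ Q → Φ (re fun l => z (τ l)) = re z := by
    intro z hz
    rw [← hQ] at hz
    obtain ⟨p, hp, hpz⟩ := hz
    have h1 : (re fun l => z (τ l)) = p := by
      funext l
      rw [← hτ p l, hpz]
      rfl
    rw [h1, hpz]
  have hmem : ∀ k ≤ K, Φ (re fun l => x' k (τ l)) = re (x' k) := by
    intro k hk
    exact hback _ (mem_extremePoints.1 (hext k hk)).1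
  have hre : ∀ {k : ℕ} {z w : Fin k → ℚ}, re z = re w → z = w := by
    intro k z w h
    funext l
    have h1 : (z l : ℝ) = (w l : ℝ) := congrFun h l
    exact_mod_cast h1
  refine ⟨?_, ?_, ?_, ?_, ?_⟩
  · refine hre (hΦ ?_)
    rw [hmem 0 (Nat.zero_le _), h0, hv]
  · intro k hk
    refine ext_preimage hΦ hQ ?_
    rw [hmem k hk]
    exact hext k hk
  · intro k hk
    obtain ⟨h1, h2⟩ := hedge k hk
    constructor
    · refine exposed_preimage hΦ hQ ?_
      rw [image_segment, hmem k hk.le, hmem (k + 1) hk]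
      exact h1
    · rw [← hmem k hk.le, ← hmem (k + 1) hk, hobj, hobj] at h2
      exact lt_of_mul_lt_mul_left h2 hD.le
  · intro hd y hy
    have h1 : d' = none := by
      cases d' with
      | none => rfl
      | some e => simp at hd
    have h2 := hopt h1 (Φ y) (hQ ▸ ⟨y, hy, rfl⟩)
    rw [← hmem K le_rfl, hobj, hobj] at h2
    exact le_of_mul_le_mul_left h2 hD
  · intro e he
    obtain ⟨e', he', rfl⟩ : ∃ e', d' = some e' ∧ (fun l => e' (τ l)) = e := by
      cases d' with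
      | none => simp at he
      | some e' => exact ⟨e', rfl, by simpa using he⟩
    obtain ⟨h1, h2⟩ := hray e' he'
    -- all points of the ray are in `Q`
    have hsub : ∀ t : ℝ, 0 ≤ t → re (x' K) + t • re e' ∈ Q := by
      intro t ht
      have hne : ({z | ∃ t : ℝ, 0 ≤ t ∧ z = re (x' K) + t • re e'} : Set (Fin N → ℝ)).Nonempty :=
        ⟨_, 0, le_rfl, rfl⟩
      obtain ⟨l, hl⟩ := h1 hne
      have h3 : re (x' K) + t • re e' ∈
          ({z | ∃ t : ℝ, 0 ≤ t ∧ z = re (x' K) + t • re e'} : Set (Fin N → ℝ)) := ⟨t, ht, rfl⟩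
      rw [hl] at h3
      exact h3.1
    have hpt : ∀ t : ℝ, 0 ≤ t → Φ ((re fun l => x' K (τ l)) + t • re fun l => e' (τ l)) =
        re (x' K) + t • re e' := by
      intro t ht
      have hz := hsub t ht
      rw [← hQ] at hz
      obtain ⟨p, hp, hpz⟩ := hz
      have h3 : ((re fun l => x' K (τ l)) + t • re fun l => e' (τ l)) = p := by
        funext l
        rw [← hτ p l, hpz]
        rfl
      rw [h3, hpz]
    constructor
    · refine exposed_preimage hΦ hQ ?_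
      have h3 : Φ '' {z | ∃ t : ℝ, 0 ≤ t ∧ z = (re fun l => x' K (τ l)) +
          t • re fun l => e' (τ l)} = {z | ∃ t : ℝ, 0 ≤ t ∧ z = re (x' K) + t • re e'} := by
        ext z
        constructor
        · rintro ⟨_, ⟨t, ht, rfl⟩, rfl⟩
          exact ⟨t, ht, hpt t ht⟩
        · rintro ⟨t, ht, rfl⟩
          exact ⟨_, ⟨t, ht, rfl⟩, hpt t ht⟩
      rw [h3]
      exact h1
    · have hlin : ∀ {k : ℕ} (g : Fin k → ℚ) (z w : Fin k → ℝ), obj g (z + w) = obj g z + obj g w := by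
        intro k g z w
        unfold obj
        rw [← Finset.sum_add_distrib]
        exact Finset.sum_congr rfl fun j _ => by rw [Pi.add_apply]; ring
      have h3 := hobj ((re fun l => x' K (τ l)) + (1 : ℝ) • re fun l => e' (τ l))
      rw [hpt 1 zero_le_one, one_smul, one_smul, hlin, hlin, mul_add, ← hobj,
        hmem K le_rfl] at h3
      have h4 : obj c' (re e') = D * obj c (re fun l => e' (τ l)) := by linarith
      rw [h4] at h2
      exact (mul_pos_iff_of_pos_left hD).1 h2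

end

end Pool.Agent.U17.PP
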