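import Pool.Agent.U17.PP.Alg2
import Pool.Agent.U17.PP.Path

/-!
# Main theorems
-/

set_option autoImplicit false

namespace Pool.Agent.U17.PP

open Pool.Agent.NPC Pool.Agent.NPC.H532.RP Finset

/-! ### Size -/

theorem length_VL_le (m n B : ℕ) : (VL m n B).length ≤ 3 * ((NR m n B + 1) * NC n B) := by
  have h1 : VL m n B ⊆ List.range 3 ×ˢ (List.range (NR m n B + 1) ×ˢ List.range (NC n B)) := by
    intro v hv
    rw [mem_VL] at hv
    rw [List.mem_product, List.mem_product, List.mem_range, List.mem_range, List.mem_range]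
    obtain ⟨k, i, j⟩ := v
    simp only at hv ⊢
    omega
  have h2 := (List.subperm_of_subset (nodup_VL m n B) h1).length_le
  rw [List.length_product, List.length_product, List.length_range, List.length_range,
    List.length_range] at h2
  exact h2

theorem length_RL (m n B : ℕ) : (RL m n B).length = 2 * (3 * (NR m n B * NC n B) + 1) := by
  unfold RL EL
  rw [List.length_product, List.length_append, List.length_product, List.length_product,
    List.length_range, List.length_range, List.length_range]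
  simp
  ring

/-! ### Integer data -/

section

variable {m n : ℕ} (A : Fin m → Fin n → ℤ) (b : Fin m → ℤ) (c : Fin n → ℤ)

/-- coefficients with the right side -/
def aI (i l : ℕ) : ℤ :=
  if hi : i < m then (if hl : l < n then A ⟨i, hi⟩ ⟨l, hl⟩ else -b ⟨i, hi⟩) else 0

/-- coefficients of the objective -/
def cI (l : ℕ) : ℤ := if hl : l < n then c ⟨l, hl⟩ else 0

theorem sum_Xf (f : ℕ → ℝ) (x : Fin n → ℝ) :
    ∑ l ∈ range (n + 1), f l * Xf x l = ∑ l : Fin n, f l * x l + f n := by
  rw [sum_range_succ, sum_range]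
  congr 1
  · refine sum_congr rfl fun l _ => ?_
    simp [Xf]
  · simp [Xf]

theorem poly_eq_int : {x : Fin n → ℝ | (∀ i < m, ∑ l ∈ range (n + 1),
      (aI A b i l : ℝ) * Xf x l ≤ 0) ∧ ∀ l, 0 ≤ x l} =
    polyhedron (fun i j => (A i j : ℚ)) (fun i => (b i : ℚ)) := by
  ext x
  have key : ∀ i : Fin m, ∑ l ∈ range (n + 1), (aI A b i l : ℝ) * Xf x l =
      ∑ j, (A i j : ℝ) * x j - b i := by
    intro i
    rw [sum_Xf (fun l => (aI A b i l : ℝ))]
    have h1 : ∀ l : Fin n, aI A b i l = A i l := by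
      intro l
      simp [aI]
    have h2 : aI A b i n = -b i := by simp [aI]
    rw [h2, sum_congr rfl fun l _ => by rw [h1 l]]
    push_cast
    ring
  constructor
  · rintro ⟨h1, h2⟩
    refine ⟨fun i => ?_, h2⟩
    have h3 := h1 i i.2
    rw [key] at h3
    push_cast
    linarith
  · rintro ⟨h1, h2⟩
    refine ⟨fun i hi => ?_, h2⟩
    have h3 := h1 ⟨i, hi⟩
    have h4 := key ⟨i, hi⟩
    push_cast at h3
    dsimp only at h4
    rw [h4]
    linarith

/-- **Universality of planar programs.** -/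
theorem universal (B : ℕ) (hA : ∀ i j, |A i j| < 2 ^ B) (hb : ∀ i, |b i| < 2 ^ B)
    (hc : ∀ j, |c j| < 2 ^ B) :
    ∃ (M N : ℕ) (A' : Fin M → Fin N → ℚ) (b' : Fin M → ℚ) (c' : Fin N → ℚ)
      (Φ : (Fin n → ℝ) →ᵃ[ℝ] (Fin N → ℝ)), Planar M N A' b' c' ∧
      M ≤ 12 * (m + 2 * ((n + 1) * (B + 1)) + 4) * ((n + 1) * (B + 1) + 1) + 2 ∧
      N ≤ 6 * (m + 2 * ((n + 1) * (B + 1)) + 4) * ((n + 1) * (B + 1) + 1) ∧
      Function.Injective Φ ∧
      Φ '' polyhedron (fun i j => (A i j : ℚ)) (fun i => (b i : ℚ)) = polyhedron A' b' ∧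
      ∀ x, obj c' (Φ x) = obj (fun j => (c j : ℚ)) x := by
  have hc' : ∀ l ≤ n, (cI c l).natAbs < 2 ^ B := by
    intro l _
    unfold cI
    split_ifs with h
    · have := hc ⟨l, h⟩
      rw [Int.abs_eq_natAbs] at this
      exact_mod_cast this
    · simp
  have ha' : ∀ i < m, ∀ l ≤ n, (aI A b i l).natAbs < 2 ^ B := by
    intro i hi l _
    unfold aI
    rw [dif_pos hi]
    split_ifs with h
    · have := hA ⟨i, hi⟩ ⟨l, h⟩
      rw [Int.abs_eq_natAbs] at this
      exact_mod_cast this
    · have := hb ⟨i, hi⟩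
      rw [Int.abs_eq_natAbs] at this
      rw [Int.natAbs_neg]
      exact_mod_cast this
  refine ⟨_, _, Am m n B (aI A b) (cI c), bm m n B, cm m n B, PhA m n B (aI A b) (cI c),
    planar m n B _ _, ?_, ?_, PhA_injective m n B _ _, ?_, fun x => ?_⟩
  · rw [length_RL]
    have h1 : NR m n B * NC n B ≤
        (m + 2 * ((n + 1) * (B + 1)) + 4) * (2 * ((n + 1) * (B + 1) + 1)) := by
      refine Nat.mul_le_mul ?_ ?_
      · unfold NR GG; omega
      · unfold NC GG; omega
    nlinarith [h1]
  · refine (length_VL_le m n B).trans ?_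
    have h1 : NR m n B + 1 = m + 2 * ((n + 1) * (B + 1)) + 4 := by unfold NR GG; omega
    have h2 : NC n B = 2 * ((n + 1) * (B + 1) + 1) := by unfold NC GG; omega
    rw [h1, h2]
    apply le_of_eq
    ring
  · rw [← poly_eq_int]
    exact image_Ph m n B _ _ hc' ha'
  · rw [PhA_apply, obj_Ph m n B _ _ _ hc', sum_Xf (fun l => (cI c l : ℝ))]
    have h1 : ∀ l : Fin n, cI c l = c l := by
      intro l
      simp [cI]
    have h2 : cI c n = 0 := by simp [cI]
    rw [h2, sum_congr rfl fun l _ => by rw [h1 l]]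
    unfold obj
    push_cast
    simp

end

/-! ### The bit model -/

section

variable {m n : ℕ} (A : Fin m → Fin n → ℚ) (b : Fin m → ℚ) (c v : Fin n → ℚ)

/-- the input as lists -/
def inpt : Inp := (List.ofFn fun i => List.ofFn (A i), List.ofFn b, List.ofFn c, List.ofFn v)

theorem rws_inpt : rws (inpt A b c v) = List.ofFn fun i => zrow (List.ofFn (A i) ++ [-b i]) := by
  refine List.ext_getElem ?_ ?_
  · simp [rws, inpt]
  · intro k h1 h2
    simp [rws, inpt]

theorem mm_inpt : mm (inpt A b c v) = m := by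
  unfold mm
  rw [rws_inpt]
  simp

theorem nn_inpt : nn (inpt A b c v) = n := by simp [nn, inpt]

/-- the positive factor of a row -/
def Di (i : Fin m) : ℕ := zden (List.ofFn (A i) ++ [-b i])

theorem getD_app {k : ℕ} (g : Fin k → ℚ) (q : ℚ) (l : ℕ) (hl : l ≤ k) :
    (List.ofFn g ++ [q]).getD l 0 = if h : l < k then g ⟨l, h⟩ else q := by
  split_ifs with h
  · rw [List.getD_eq_getElem _ _ (by simp; omega)]
    rw [List.getElem_append_left (by simp; exact h)]
    simp
  · have : l = k := by omega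
    subst this
    rw [List.getD_eq_getElem _ _ (by simp)]
    rw [List.getElem_append_right (by simp)]
    simp

theorem aa_inpt (i : Fin m) (l : ℕ) (hl : l ≤ n) :
    ((aa (inpt A b c v) i l : ℤ) : ℚ) =
      Di A b i * (if h : l < n then A i ⟨l, h⟩ else -b i) := by
  unfold aa
  rw [rws_inpt]
  have h1 : (List.ofFn fun i => zrow (List.ofFn (A i) ++ [-b i])).getD (i : ℕ) [] =
      zrow (List.ofFn (A i) ++ [-b i]) := by
    rw [List.getD_eq_getElem _ _ (by simp)]
    simp
  rw [h1, getD_zrow, getD_app _ _ _ hl]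
  rfl

theorem cc_inpt (l : ℕ) (hl : l ≤ n) :
    ((cc (inpt A b c v) l : ℤ) : ℚ) =
      zden (List.ofFn c ++ [0]) * (if h : l < n then c ⟨l, h⟩ else 0) := by
  unfold cc cof
  rw [getD_zrow]
  rw [show (inpt A b c v).2.2.1 = List.ofFn c from rfl, getD_app _ _ _ hl]

theorem natAbs_lt_sz (z : ℤ) : z.natAbs < 2 ^ sz z := by
  have h1 := size_natAbs_le_sz z
  exact (Nat.lt_size_self _).trans_le (Nat.pow_le_pow_right (by norm_num) (by omega))

theorem sz_getD_le {β : Type} [TEnc β] (l : List β) (d : β) (hd : sz d ≤ sz l) (k : ℕ) :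
    sz (l.getD k d) ≤ sz l := by
  rw [List.getD_eq_getElem?_getD]
  cases h : l[k]? with
  | none => simpa using hd
  | some z =>
    simp only [Option.getD_some]
    exact (sz_le_of_mem (List.mem_of_getElem? h)).le

theorem aa_lt (x : Inp) (i l : ℕ) : (aa x i l).natAbs < 2 ^ BB x := by
  have h0 : ∀ (L : List (List ℤ)), sz ([] : List ℤ) ≤ sz L := by
    intro L
    have := sz_pos L
    simp
    omega
  unfold aa
  set r := (rws x).getD i [] with hr
  have h1 : sz r ≤ sz (rws x) := sz_getD_le _ _ (h0 _) i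
  rw [List.getD_eq_getElem?_getD]
  cases h : r[l]? with
  | none => simp
  | some z =>
    simp only [Option.getD_some]
    refine (natAbs_lt_sz z).trans_le (Nat.pow_le_pow_right (by norm_num) ?_)
    have h2 := sz_le_of_mem (List.mem_of_getElem? h)
    unfold BB
    rw [sz_pair]
    omega

theorem cc_lt (x : Inp) (l : ℕ) : (cc x l).natAbs < 2 ^ BB x := by
  unfold cc
  rw [List.getD_eq_getElem?_getD]
  cases h : (cof x)[l]? with
  | none => simp
  | some z =>
    simp only [Option.getD_some]
    refine (natAbs_lt_sz z).trans_le (Nat.pow_le_pow_right (by norm_num) ?_)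
    have h2 := sz_le_of_mem (List.mem_of_getElem? h)
    unfold BB
    rw [sz_pair]
    omega

theorem XL_inpt : XL (inpt A b c v) = Xf v := by
  funext l
  unfold XL Xf
  rw [nn_inpt]
  split_ifs with h
  · show (List.ofFn v).getD l 0 = _
    rw [List.getD_eq_getElem _ _ (by simp; exact h)]
    simp
  · rfl

/-- the polyhedron -/
theorem poly_eq_rat : {x : Fin n → ℝ | (∀ i < m, ∑ l ∈ range (n + 1),
      (aa (inpt A b c v) i l : ℝ) * Xf x l ≤ 0) ∧ ∀ l, 0 ≤ x l} = polyhedron A b := by
  ext x
  have key : ∀ i : Fin m, ∑ l ∈ range (n + 1), (aa (inpt A b c v) i l : ℝ) * Xf x l =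
      Di A b i * (∑ j, (A i j : ℝ) * x j - b i) := by
    intro i
    rw [sum_Xf (fun l => (aa (inpt A b c v) i l : ℝ))]
    have h1 : ∀ l : Fin n, (aa (inpt A b c v) i l : ℝ) = Di A b i * A i l := by
      intro l
      have h := congrArg (Rat.cast : ℚ → ℝ) (aa_inpt A b c v i l l.2.le)
      rw [dif_pos l.2] at h
      push_cast at h
      exact h
    have h2 : (aa (inpt A b c v) i n : ℝ) = -(Di A b i * b i) := by
      have h := congrArg (Rat.cast : ℚ → ℝ) (aa_inpt A b c v i n le_rfl)
      rw [dif_neg (lt_irrefl n)] at h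
      push_cast at h
      rw [h]
      ring
    rw [h2, sum_congr rfl fun l _ => by rw [h1 l], mul_sub, mul_sum]
    rw [sum_congr rfl fun l _ => by rw [mul_assoc]]
    ring
  have hD : ∀ i : Fin m, (0 : ℝ) < Di A b i := fun i => by exact_mod_cast zden_pos _
  constructor
  · rintro ⟨h1, h2⟩
    refine ⟨fun i => ?_, h2⟩
    have h3 := h1 i i.2
    rw [key] at h3
    have h4 : ∑ j, (A i j : ℝ) * x j - b i ≤ 0 := by
      by_contra h
      push Not at h
      have := mul_pos (hD i) h
      linarith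
    linarith
  · rintro ⟨h1, h2⟩
    refine ⟨fun i hi => ?_, h2⟩
    have h3 := h1 ⟨i, hi⟩
    have h4 := key ⟨i, hi⟩
    dsimp only at h4
    rw [h4]
    exact mul_nonpos_of_nonneg_of_nonpos (hD _).le (by linarith)

theorem obj_eq_rat (x : Fin n → ℝ) : ∑ l ∈ range (n + 1),
      (cc (inpt A b c v) l : ℝ) * Xf x l = zden (List.ofFn c ++ [0]) * obj c x := by
  rw [sum_Xf (fun l => (cc (inpt A b c v) l : ℝ))]
  have h1 : ∀ l : Fin n, (cc (inpt A b c v) l : ℝ) = zden (List.ofFn c ++ [0]) * c l := by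
    intro l
    have h := congrArg (Rat.cast : ℚ → ℝ) (cc_inpt A b c v l l.2.le)
    rw [dif_pos l.2] at h
    push_cast at h
    exact h
  have h2 : (cc (inpt A b c v) n : ℝ) = 0 := by
    have h := congrArg (Rat.cast : ℚ → ℝ) (cc_inpt A b c v n le_rfl)
    rw [dif_neg (lt_irrefl n)] at h
    push_cast at h
    rw [h]
    ring
  rw [h2, sum_congr rfl fun l _ => by rw [h1 l], add_zero]
  unfold obj
  rw [mul_sum]
  exact sum_congr rfl fun l _ => by rw [mul_assoc]

/-- rational values -/
theorem re_Ph (B : ℕ) (a : ℕ → ℕ → ℤ) (co : ℕ → ℤ) :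
    re (Ph m n B a co v) = Ph m n B a co (re v) := by
  funext j
  have hX : ∀ l, ((Xf v l : ℚ) : ℝ) = Xf (re v) l := by
    intro l
    unfold Xf re
    split_ifs <;> simp
  have hp : ∀ g, ((pw B (Xf v) g : ℚ) : ℝ) = pw B (Xf (re v)) g := by
    intro g
    unfold pw
    push_cast
    rw [hX]
  have hU : ((U0 n B (Xf v) : ℚ) : ℝ) = U0 n B (Xf (re v)) := by
    unfold U0
    push_cast
    congr 1
    exact sum_congr rfl fun l _ => hX l
  have hY : ∀ j, ((Yv n B (Xf v) j : ℚ) : ℝ) = Yv n B (Xf (re v)) j := by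
    intro j
    unfold Yv
    split_ifs
    · exact hU
    · exact hp _
    · exact hp _
    · exact hU
  have hW : ∀ i j, ((Wv (Sg m n B a co) (Yv n B (Xf v)) i j : ℚ) : ℝ) =
      Wv (Sg m n B a co) (Yv n B (Xf (re v))) i j := by
    intro i j
    unfold Wv
    push_cast
    congr 1
    exact sum_congr rfl fun k _ => by rw [hY]
  show ((Fv (Sg m n B a co) (Yv n B (Xf v)) (VL m n B)[j] : ℚ) : ℝ) =
    Fv (Sg m n B a co) (Yv n B (Xf (re v))) (VL m n B)[j]
  unfold Fv
  split_ifs
  · exact hY _
  · exact hW _ _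
  · push_cast
    rw [hW, hY]
  · exact hW _ _

/-- the output of the reduction -/
theorem outp_inpt : bits (outp (inpt A b c v)) =
    input (Am m n (BB (inpt A b c v)) (aa (inpt A b c v)) (cc (inpt A b c v)))
      (bm m n (BB (inpt A b c v))) (cm m n (BB (inpt A b c v)))
      (Ph m n (BB (inpt A b c v)) (aa (inpt A b c v)) (cc (inpt A b c v)) v) := by
  set x := inpt A b c v with hx
  have hm : mm x = m := mm_inpt A b c v
  have hn : nn x = n := nn_inpt A b c v
  unfold input
  congr 1
  have h1 : ∀ (r : Lb × Bool) (w : Lb), entX x r w = entQ m n (BB x) (aa x) (cc x) r w := by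
    intro r w
    unfold entX
    rw [hm, hn]
  have h2 : ∀ w ∈ VL m n (BB x), FX x w =
      Fv (Sg m n (BB x) (aa x) (cc x)) (Yv n (BB x) (Xf v)) w := by
    intro w hw
    rw [mem_VL] at hw
    rw [FX_eq (by rw [hn]; omega)]
    have e1 : SgX x = Sg m n (BB x) (aa x) (cc x) := by
      funext i j
      unfold SgX
      rw [hm, hn]
    have e2 : YX x = Yv n (BB x) (Xf v) := by
      funext j
      unfold YX
      rw [hn, hx, XL_inpt]
    rw [e1, e2]
  unfold outp
  rw [hm, hn]
  refine Prod.ext ?_ (Prod.ext ?_ (Prod.ext ?_ ?_))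
  · show (RL m n (BB x)).map (fun r => (VL m n (BB x)).map fun w => entX x r w) =
      List.ofFn fun i => List.ofFn (Am m n (BB x) (aa x) (cc x) i)
    symm
    have h3 : ∀ i : Fin (RL m n (BB x)).length,
        List.ofFn (Am m n (BB x) (aa x) (cc x) i) =
        (VL m n (BB x)).map (fun w => entX x (RL m n (BB x))[i] w) := by
      intro i
      simp only [h1]
      exact List.ofFn_getElem_eq_map (VL m n (BB x))
        (fun w => entQ m n (BB x) (aa x) (cc x) (RL m n (BB x))[i] w)
    simp only [h3]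
    exact List.ofFn_getElem_eq_map (RL m n (BB x))
      (fun r => (VL m n (BB x)).map (fun w => entX x r w))
  · exact (List.ofFn_getElem_eq_map (RL m n (BB x)) (fun r => rhsQ r)).symm
  · exact (List.ofFn_getElem_eq_map (VL m n (BB x)) (fun w => objQ m n (BB x) w)).symm
  · show (VL m n (BB x)).map (fun w => FX x w) = List.ofFn (Ph m n (BB x) (aa x) (cc x) v)
    rw [List.map_congr_left h2]
    exact (List.ofFn_getElem_eq_map (VL m n (BB x)) (fun w =>
      Fv (Sg m n (BB x) (aa x) (cc x)) (Yv n (BB x) (Xf v)) w)).symm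

theorem back_list (B : ℕ) (z : Fin (VL m n B).length → ℚ) :
    ((List.range n).map fun l => (List.ofFn z).getD l 0) =
      List.ofFn fun l : Fin n => z (tau m n B l) := by
  refine List.ext_getElem (by simp) ?_
  intro k h1 h2
  have hk : k < n := by simpa using h1
  have hk' : k < (VL m n B).length := hk.trans_le (n_le m n B)
  rw [List.getElem_map, List.getElem_range, List.getD_eq_getElem _ _ (by simpa using hk'),
    List.getElem_ofFn, List.getElem_ofFn]
  rfl

end

/-- **The new version is correct.** -/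
theorem version_newf {C : ∀ m n : ℕ, (Fin m → Fin n → ℚ) → (Fin m → ℚ) → (Fin n → ℚ) → Prop}
    (hC : ∀ m n A b c, Planar m n A b c → C m n A b c) {f : List Bool → List Bool}
    (hf : Version C f) : Version (fun _ _ _ _ _ => True) (fun w => bits (newf f w)) := by
  intro m n A b c v _ hv
  set x := inpt A b c v with hx
  have hc' : ∀ l ≤ n, (cc x l).natAbs < 2 ^ BB x := fun l _ => cc_lt x l
  have ha' : ∀ i < m, ∀ l ≤ n, (aa x i l).natAbs < 2 ^ BB x := fun i _ l _ => aa_lt x i l
  have hQ : PhA m n (BB x) (aa x) (cc x) '' polyhedron A b =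
      polyhedron (Am m n (BB x) (aa x) (cc x)) (bm m n (BB x)) := by
    rw [← poly_eq_rat A b c v]
    exact image_Ph m n (BB x) _ _ hc' ha'
  have hΦ := PhA_injective m n (BB x) (aa x) (cc x)
  have hD : (0 : ℝ) < zden (List.ofFn c ++ [0]) := by exact_mod_cast zden_pos _
  have hobj : ∀ y, obj (cm m n (BB x)) (PhA m n (BB x) (aa x) (cc x) y) =
      (zden (List.ofFn c ++ [0]) : ℝ) * obj c y := by
    intro y
    rw [PhA_apply, obj_Ph m n (BB x) _ _ y hc', obj_eq_rat A b c v]
  have hv' : re (Ph m n (BB x) (aa x) (cc x) v) = PhA m n (BB x) (aa x) (cc x) (re v) :=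
    re_Ph v (BB x) _ _
  have hext : re (Ph m n (BB x) (aa x) (cc x) v) ∈ Set.extremePoints ℝ
      (polyhedron (Am m n (BB x) (aa x) (cc x)) (bm m n (BB x))) := by
    rw [hv']
    exact ext_image hΦ hQ hv
  obtain ⟨N, y, d, h1, h2⟩ := hf _ _ _ _ _ _ (hC _ _ _ _ _ (planar m n (BB x) (aa x) (cc x))) hext
  have h3 := path_transfer hΦ hQ (tau m n (BB x))
    (fun z l => by rw [PhA_apply, Ph_tau]) hD hobj hv' h2
  refine ⟨N, _, _, ?_, h3⟩
  show bits (newf f (bits x)) = _
  unfold newf
  rw [unbits_bits]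
  simp only [Option.elim_some]
  rw [outp_inpt A b c v, h1]
  unfold output
  rw [unbits_bits]
  simp only [Option.elim_some]
  congr 1
  unfold back
  rw [nn_inpt]
  refine Prod.ext ?_ ?_
  · simp only [List.map_map]
    refine List.map_congr_left fun k _ => ?_
    exact back_list (m := m) (BB x) (y k)
  · cases d with
    | none => rfl
    | some e =>
      simp only [Option.map_some]
      rw [back_list (m := m) (BB x) e]

/-- **A polynomial-time version of the simplex method for planar programs is enough.** -/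
theorem planar_enough {C : ∀ m n : ℕ, (Fin m → Fin n → ℚ) → (Fin m → ℚ) → (Fin n → ℚ) → Prop}
    (hC : ∀ m n A b c, Planar m n A b c → C m n A b c) :
    (∃ f : List Bool → List Bool, PolyTime f ∧ Version C f) ↔
      ∃ f : List Bool → List Bool, PolyTime f ∧ Version (fun _ _ _ _ _ => True) f := by
  constructor
  · rintro ⟨f, hf, h⟩
    exact ⟨_, polyTime_newf hf, version_newf hC h⟩
  · rintro ⟨f, hf, h⟩
    exact ⟨f, hf, fun m n A b c v _ hv => h m n A b c v trivial hv⟩

end Pool.Agent.U17.PP
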