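import Pool.Agent.U17.PP.Lay

/-!
# The sign matrix of a linear program
-/

set_option autoImplicit false

namespace Pool.Agent.U17.PP

open Finset

/-- signed binary digits -/
def dig (a : ℤ) (k : ℕ) : ℤ :=
  if a.natAbs / 2 ^ k % 2 = 1 then (if a < 0 then -1 else 1) else 0

theorem dig_vals (a : ℤ) (k : ℕ) : dig a k = 0 ∨ dig a k = 1 ∨ dig a k = -1 := by
  unfold dig
  split_ifs <;> simp

section

variable {𝕜 : Type} [Field 𝕜] [LinearOrder 𝕜] [IsStrictOrderedRing 𝕜]

theorem sum_dig_nat (a : ℕ) (K : ℕ) : ∑ k ∈ range K, (a / 2 ^ k % 2) * 2 ^ k = a % 2 ^ K := by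
  induction K with
  | zero => simp [Nat.mod_one]
  | succ K ih =>
    rw [sum_range_succ, ih, Nat.mod_pow_succ]
    ring

theorem sum_dig {a : ℤ} {K : ℕ} (h : a.natAbs < 2 ^ K) :
    ∑ k ∈ range K, (dig a k : 𝕜) * 2 ^ k = a := by
  have h1 := sum_dig_nat a.natAbs K
  rw [Nat.mod_eq_of_lt h] at h1
  have h2 : ∑ k ∈ range K, ((a.natAbs / 2 ^ k % 2 : ℕ) : 𝕜) * 2 ^ k = (a.natAbs : 𝕜) := by
    have := congrArg (Nat.cast : ℕ → 𝕜) h1
    push_cast at this
    rw [← this]
    try push_cast
    try rfl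
  have h3 : ∀ k ∈ range K, (dig a k : 𝕜) * 2 ^ k =
      (if a < 0 then -1 else 1) * (((a.natAbs / 2 ^ k % 2 : ℕ) : 𝕜) * 2 ^ k) := by
    intro k _
    unfold dig
    rcases Nat.mod_two_eq_zero_or_one (a.natAbs / 2 ^ k) with h4 | h4
    · rw [h4]; simp
    · rw [h4, if_pos rfl]; split_ifs <;> simp
  rw [sum_congr rfl h3, ← mul_sum, h2]
  split_ifs with h5
  · have : (a : 𝕜) = -((a.natAbs : ℤ) : 𝕜) := by
      rw [← Int.cast_neg]
      congr 1
      omega
    rw [this, Int.cast_natCast, neg_one_mul]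
  · have : (a : 𝕜) = ((a.natAbs : ℤ) : 𝕜) := by
      congr 1
      omega
    rw [this, Int.cast_natCast, one_mul]

theorem sum_abs_dig {a : ℤ} {K : ℕ} (h : a.natAbs < 2 ^ K) :
    ∑ k ∈ range K, |(dig a k : 𝕜)| * 2 ^ k = a.natAbs := by
  have h1 := sum_dig_nat a.natAbs K
  rw [Nat.mod_eq_of_lt h] at h1
  have h2 : ∑ k ∈ range K, ((a.natAbs / 2 ^ k % 2 : ℕ) : 𝕜) * 2 ^ k = (a.natAbs : 𝕜) := by
    have := congrArg (Nat.cast : ℕ → 𝕜) h1
    push_cast at this
    rw [← this]
    try push_cast
    try rfl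
  rw [← h2]
  refine sum_congr rfl fun k _ => ?_
  unfold dig
  rcases Nat.mod_two_eq_zero_or_one (a.natAbs / 2 ^ k) with h4 | h4
  · rw [h4]; simp
  · rw [h4, if_pos rfl]; split_ifs <;> simp

theorem sum_block (f : ℕ → 𝕜) (a b : ℕ) :
    ∑ g ∈ range (a * b), f g = ∑ l ∈ range a, ∑ k ∈ range b, f (b * l + k) := by
  induction a with
  | zero => simp
  | succ a ih =>
    rw [Nat.succ_mul, sum_range_add, ih, sum_range_succ]
    simp [mul_comm]

end

/-! ### The matrix -/

section

variable (m n B : ℕ) (a : ℕ → ℕ → ℤ) (co : ℕ → ℤ)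

/-- the number of digits of all variables -/
def GG : ℕ := (n + 1) * (B + 1)

/-- the entry in the column `0` -/
def su (i : ℕ) : ℤ :=
  if 2 + GG n B ≤ i ∧ i < 2 + 2 * GG n B ∧ (i - (2 + GG n B)) % (B + 1) = B then 0 else -1

/-- the entries in the columns `1, …, G` -/
def sp (i g : ℕ) : ℤ :=
  if i = 0 then (if g % (B + 1) = B then 1 else 0)
  else if i = 1 then 0
  else if i < 2 + GG n B then (if g = i - 2 then 1 else 0)
  else if i < 2 + 2 * GG n B then
    (if (i - (2 + GG n B)) % (B + 1) = B then 0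
      else if g = i - (2 + GG n B) then 1 else if g = i - (2 + GG n B) + 1 then -1 else 0)
  else if i < 2 + 2 * GG n B + m then dig (a (i - (2 + 2 * GG n B)) (g / (B + 1))) (g % (B + 1))
  else - dig (co (g / (B + 1))) (g % (B + 1))

/-- the entries in the columns `G + 1, …, 2 G` -/
def sq (i g : ℕ) : ℤ :=
  if i < 2 then 0
  else if i < 2 + GG n B then (if g = i - 2 then -1 else 0)
  else if i < 2 + 2 * GG n B then
    (if (i - (2 + GG n B)) % (B + 1) = B then 0 else if g = i - (2 + GG n B) then 1 else 0)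
  else 0

/-- the entry in the column `2 G + 1` -/
def sw (i : ℕ) : ℤ :=
  if i = 0 then 0
  else if i < 2 + GG n B then 1
  else if i < 2 + 2 * GG n B then (if (i - (2 + GG n B)) % (B + 1) = B then 0 else 1)
  else if i < 2 + 2 * GG n B + m then 1
  else 0

/-- the sign matrix -/
def Sg (i j : ℕ) : ℤ :=
  if j = 0 then su n B i
  else if j < 1 + GG n B then sp m n B a co i (j - 1)
  else if j < 1 + 2 * GG n B then sq n B i (j - (1 + GG n B))
  else sw m n B i

theorem Sg_vals (i j : ℕ) : Sg m n B a co i j = 0 ∨ Sg m n B a co i j = 1 ∨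
    Sg m n B a co i j = -1 := by
  unfold Sg
  split_ifs
  · unfold su; split_ifs <;> simp
  · unfold sp
    split_ifs <;> first | simp; done | exact dig_vals _ _ | skip
    rcases dig_vals (co ((j - 1) / (B + 1))) ((j - 1) % (B + 1)) with h | h | h <;> simp [h]
  · unfold sq; split_ifs <;> simp
  · unfold sw; split_ifs <;> simp

variable {𝕜 : Type} [Field 𝕜] [LinearOrder 𝕜] [IsStrictOrderedRing 𝕜]

/-- the value of a digit column -/
def pw (X : ℕ → 𝕜) (g : ℕ) : 𝕜 := 2 ^ (g % (B + 1)) * X (g / (B + 1))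

/-- the large value -/
def U0 (X : ℕ → 𝕜) : 𝕜 := 2 ^ B * ∑ l ∈ range (n + 1), X l

/-- the values of the columns -/
def Yv (X : ℕ → 𝕜) (j : ℕ) : 𝕜 :=
  if j = 0 then U0 n B X
  else if j < 1 + GG n B then pw B X (j - 1)
  else if j < 1 + 2 * GG n B then pw B X (j - (1 + GG n B))
  else U0 n B X

theorem sum_cols (f : ℕ → 𝕜) : ∑ j ∈ range (2 * GG n B + 2), f j =
    f 0 + ∑ g ∈ range (GG n B), f (1 + g) + ∑ g ∈ range (GG n B), f (1 + GG n B + g) +
      f (2 * GG n B + 1) := by
  rw [show 2 * GG n B + 2 = 1 + GG n B + GG n B + 1 by ring, sum_range_succ, sum_range_add,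
    sum_range_add, sum_range_one]
  congr 2
  ring

theorem row_sum (y : ℕ → 𝕜) (i : ℕ) :
    ∑ j ∈ range (2 * GG n B + 2), (Sg m n B a co i j : 𝕜) * y j =
      (su n B i : 𝕜) * y 0 + ∑ g ∈ range (GG n B), (sp m n B a co i g : 𝕜) * y (1 + g) +
        ∑ g ∈ range (GG n B), (sq n B i g : 𝕜) * y (1 + GG n B + g) +
        (sw m n B i : 𝕜) * y (2 * GG n B + 1) := by
  rw [sum_cols]
  congr 1
  · congr 1
    · congr 1
      refine sum_congr rfl fun g hg => ?_
      rw [mem_range] at hg
      rw [Sg, if_neg (by omega), if_pos (by omega), Nat.add_sub_cancel_left]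
    · refine sum_congr rfl fun g hg => ?_
      rw [mem_range] at hg
      rw [Sg, if_neg (by omega), if_neg (by omega), if_pos (by omega), Nat.add_sub_cancel_left]
  · rw [Sg, if_neg (by omega), if_neg (by omega), if_neg (by omega)]

theorem blk_div {l k : ℕ} (hk : k < B + 1) : ((B + 1) * l + k) / (B + 1) = l := by
  rw [Nat.mul_add_div (Nat.succ_pos B), Nat.div_eq_of_lt hk, add_zero]

theorem blk_mod {l k : ℕ} (hk : k < B + 1) : ((B + 1) * l + k) % (B + 1) = k := by
  rw [Nat.mul_add_mod, Nat.mod_eq_of_lt hk]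

theorem sum_last (f : ℕ → 𝕜) : ∑ g ∈ range (GG n B), (if g % (B + 1) = B then f g else 0) =
    ∑ l ∈ range (n + 1), f ((B + 1) * l + B) := by
  unfold GG
  rw [sum_block]
  refine sum_congr rfl fun l _ => ?_
  rw [sum_range_succ, blk_mod B (Nat.lt_succ_self B), if_pos rfl]
  rw [sum_eq_zero, zero_add]
  intro k hk
  rw [mem_range] at hk
  rw [blk_mod B (by omega), if_neg (by omega)]

theorem sum_digs (X : ℕ → 𝕜) (c : ℕ → ℤ) (hc : ∀ l ≤ n, (c l).natAbs < 2 ^ (B + 1)) :
    ∑ g ∈ range (GG n B), (dig (c (g / (B + 1))) (g % (B + 1)) : 𝕜) * pw B X g =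
      ∑ l ∈ range (n + 1), (c l : 𝕜) * X l := by
  unfold GG
  rw [sum_block]
  refine sum_congr rfl fun l hl => ?_
  rw [mem_range] at hl
  rw [← sum_dig (𝕜 := 𝕜) (hc l (by omega)), sum_mul]
  refine sum_congr rfl fun k hk => ?_
  rw [mem_range] at hk
  unfold pw
  rw [blk_div B hk, blk_mod B hk]
  ring

theorem sum_abs_digs (X : ℕ → 𝕜) (c : ℕ → ℤ) (hc : ∀ l ≤ n, (c l).natAbs < 2 ^ (B + 1)) :
    ∑ g ∈ range (GG n B), |(dig (c (g / (B + 1))) (g % (B + 1)) : 𝕜)| * pw B X g =
      ∑ l ∈ range (n + 1), ((c l).natAbs : 𝕜) * X l := by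
  unfold GG
  rw [sum_block]
  refine sum_congr rfl fun l hl => ?_
  rw [mem_range] at hl
  rw [← sum_abs_dig (𝕜 := 𝕜) (hc l (by omega)), sum_mul]
  refine sum_congr rfl fun k hk => ?_
  rw [mem_range] at hk
  unfold pw
  rw [blk_div B hk, blk_mod B hk]
  ring

theorem Yv_0 (X : ℕ → 𝕜) : Yv n B X 0 = U0 n B X := by rw [Yv, if_pos rfl]

theorem Yv_p (X : ℕ → 𝕜) {g : ℕ} (hg : g < GG n B) : Yv n B X (1 + g) = pw B X g := by
  rw [Yv, if_neg (by omega), if_pos (by omega), Nat.add_sub_cancel_left]

theorem Yv_q (X : ℕ → 𝕜) {g : ℕ} (hg : g < GG n B) : Yv n B X (1 + GG n B + g) = pw B X g := by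
  rw [Yv, if_neg (by omega), if_neg (by omega), if_pos (by omega), Nat.add_sub_cancel_left]

theorem Yv_w (X : ℕ → 𝕜) : Yv n B X (2 * GG n B + 1) = U0 n B X := by
  rw [Yv, if_neg (by omega), if_neg (by omega), if_neg (by omega)]

theorem row_Yv (X : ℕ → 𝕜) (i : ℕ) :
    ∑ j ∈ range (2 * GG n B + 2), (Sg m n B a co i j : 𝕜) * Yv n B X j =
      (su n B i : 𝕜) * U0 n B X + ∑ g ∈ range (GG n B), (sp m n B a co i g : 𝕜) * pw B X g +
        ∑ g ∈ range (GG n B), (sq n B i g : 𝕜) * pw B X g + (sw m n B i : 𝕜) * U0 n B X := by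
  rw [row_sum, Yv_0, Yv_w]
  congr 1
  congr 1
  · congr 1
    refine sum_congr rfl fun g hg => ?_
    rw [Yv_p _ _ _ (mem_range.1 hg)]
  · refine sum_congr rfl fun g hg => ?_
    rw [Yv_q _ _ _ (mem_range.1 hg)]

theorem U0_eq (X : ℕ → 𝕜) : U0 n B X = ∑ l ∈ range (n + 1), pw B X ((B + 1) * l + B) := by
  unfold U0 pw
  rw [mul_sum]
  refine sum_congr rfl fun l _ => ?_
  rw [blk_div B (Nat.lt_succ_self B), blk_mod B (Nat.lt_succ_self B)]

/-- the next digit -/
theorem pw_succ (X : ℕ → 𝕜) {g : ℕ} (h : g % (B + 1) < B) : pw B X (g + 1) = 2 * pw B X g := by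
  have h1 : (g + 1) / (B + 1) = g / (B + 1) ∧ (g + 1) % (B + 1) = g % (B + 1) + 1 := by
    have h2 := Nat.div_add_mod g (B + 1)
    have h3 : g + 1 = (B + 1) * (g / (B + 1)) + (g % (B + 1) + 1) := by omega
    constructor
    · rw [h3]; exact blk_div B (by omega)
    · rw [h3]; exact blk_mod B (by omega)
  unfold pw
  rw [h1.1, h1.2, pow_succ]
  ring

theorem lt_GG {g : ℕ} (hg : g < GG n B) (h : g % (B + 1) < B) : g + 1 < GG n B := by
  unfold GG at *
  have h2 := Nat.div_add_mod g (B + 1)
  have h3 : g / (B + 1) < n + 1 := Nat.div_lt_of_lt_mul (by rwa [mul_comm])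
  have h4 : (B + 1) * (g / (B + 1)) + (B + 1) ≤ (n + 1) * (B + 1) := by
    have := Nat.mul_le_mul_right (B + 1) (Nat.succ_le_of_lt h3)
    rw [Nat.succ_mul] at this
    rw [mul_comm (B + 1)]
    exact this
  omega

/-- the closed rows vanish -/
theorem closed_zero (X : ℕ → 𝕜) {i : ℕ} (hi : i < 2 + 2 * GG n B) :
    Wv (Sg m n B a co) (Yv n B X) i (2 * GG n B + 2) = 0 := by
  unfold Wv
  rw [neg_eq_zero, row_Yv]
  rcases Nat.lt_or_ge i 2 with h2 | h2
  · interval_cases i
    · have e1 : su n B 0 = -1 := by rw [su, if_neg (by omega)]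
      have e2 : sw m n B 0 = 0 := by rw [sw, if_pos rfl]
      have e3 : ∀ g, sq n B 0 g = 0 := fun g => by rw [sq, if_pos (by omega)]
      have e4 : ∑ g ∈ range (GG n B), (sp m n B a co 0 g : 𝕜) * pw B X g = U0 n B X := by
        rw [U0_eq, ← sum_last n B (fun g => pw B X g)]
        refine sum_congr rfl fun g _ => ?_
        rw [sp, if_pos rfl]
        split_ifs <;> simp
      rw [e1, e2, e4]
      simp [e3]
    · have e1 : su n B 1 = -1 := by rw [su, if_neg (by omega)]
      have e2 : sw m n B 1 = 1 := by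
        rw [sw, if_neg (by omega), if_pos (by omega)]
      have e3 : ∀ g, sq n B 1 g = 0 := fun g => by rw [sq, if_pos (by omega)]
      have e4 : ∀ g, sp m n B a co 1 g = 0 := fun g => by
        rw [sp, if_neg (by omega), if_pos rfl]
      rw [e1, e2]
      simp [e3, e4]
  · rcases Nat.lt_or_ge i (2 + GG n B) with h3 | h3
    · have e1 : su n B i = -1 := by rw [su, if_neg (by omega)]
      have e2 : sw m n B i = 1 := by rw [sw, if_neg (by omega), if_pos h3]
      have e3 : ∑ g ∈ range (GG n B), (sq n B i g : 𝕜) * pw B X g = -pw B X (i - 2) := by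
        have : ∀ g ∈ range (GG n B), (sq n B i g : 𝕜) * pw B X g =
            if g = i - 2 then -pw B X (i - 2) else 0 := by
          intro g _
          rw [sq, if_neg (by omega), if_pos h3]
          split_ifs with h
          · rw [h]; simp
          · simp
        rw [sum_congr rfl this, sum_ite_eq', if_pos (mem_range.2 (by omega))]
      have e4 : ∑ g ∈ range (GG n B), (sp m n B a co i g : 𝕜) * pw B X g = pw B X (i - 2) := by
        have : ∀ g ∈ range (GG n B), (sp m n B a co i g : 𝕜) * pw B X g =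
            if g = i - 2 then pw B X (i - 2) else 0 := by
          intro g _
          rw [sp, if_neg (by omega), if_neg (by omega), if_pos h3]
          split_ifs with h
          · rw [h]; simp
          · simp
        rw [sum_congr rfl this, sum_ite_eq', if_pos (mem_range.2 (by omega))]
      rw [e1, e2, e3, e4]
      push_cast
      ring
    · by_cases hB : (i - (2 + GG n B)) % (B + 1) = B
      · have e1 : su n B i = 0 := by rw [su, if_pos ⟨h3, hi, hB⟩]
        have e2 : sw m n B i = 0 := by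
          rw [sw, if_neg (by omega), if_neg (by omega), if_pos hi, if_pos hB]
        have e3 : ∀ g, sq n B i g = 0 := fun g => by
          rw [sq, if_neg (by omega), if_neg (by omega), if_pos hi, if_pos hB]
        have e4 : ∀ g, sp m n B a co i g = 0 := fun g => by
          rw [sp, if_neg (by omega), if_neg (by omega), if_neg (by omega), if_pos hi, if_pos hB]
        rw [e1, e2]
        simp [e3, e4]
      · have hlt : (i - (2 + GG n B)) % (B + 1) < B := by
          have := Nat.mod_lt (i - (2 + GG n B)) (show 0 < B + 1 by omega)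
          omega
        have hg : i - (2 + GG n B) < GG n B := by omega
        have hg1 := lt_GG n B hg hlt
        have e1 : su n B i = -1 := by rw [su, if_neg (by tauto)]
        have e2 : sw m n B i = 1 := by
          rw [sw, if_neg (by omega), if_neg (by omega), if_pos hi, if_neg hB]
        have e3 : ∑ g ∈ range (GG n B), (sq n B i g : 𝕜) * pw B X g =
            pw B X (i - (2 + GG n B)) := by
          have : ∀ g ∈ range (GG n B), (sq n B i g : 𝕜) * pw B X g =
              if g = i - (2 + GG n B) then pw B X (i - (2 + GG n B)) else 0 := by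
            intro g _
            rw [sq, if_neg (by omega), if_neg (by omega), if_pos hi, if_neg hB]
            split_ifs with h
            · rw [h]; simp
            · simp
          rw [sum_congr rfl this, sum_ite_eq', if_pos (mem_range.2 (by omega))]
        have e4 : ∑ g ∈ range (GG n B), (sp m n B a co i g : 𝕜) * pw B X g =
            pw B X (i - (2 + GG n B)) - pw B X (i - (2 + GG n B) + 1) := by
          have : ∀ g ∈ range (GG n B), (sp m n B a co i g : 𝕜) * pw B X g =
              (if g = i - (2 + GG n B) then pw B X (i - (2 + GG n B)) else 0) -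
              (if g = i - (2 + GG n B) + 1 then pw B X (i - (2 + GG n B) + 1) else 0) := by
            intro g _
            rw [sp, if_neg (by omega), if_neg (by omega), if_neg (by omega), if_pos hi, if_neg hB]
            by_cases h : g = i - (2 + GG n B)
            · rw [if_pos h, if_pos h, if_neg (by omega), h]
              simp
            · rw [if_neg h, if_neg h]
              split_ifs with h'
              · rw [h']; simp
              · simp
          rw [sum_congr rfl this, sum_sub_distrib, sum_ite_eq', sum_ite_eq',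
            if_pos (mem_range.2 (by omega)), if_pos (mem_range.2 (by omega))]
        rw [e1, e2, e3, e4, pw_succ B X hlt]
        push_cast
        ring

/-- the value of a main row -/
theorem main_val (X : ℕ → 𝕜) {i : ℕ} (hi : i < m) (ha : ∀ l ≤ n, (a i l).natAbs < 2 ^ (B + 1)) :
    Wv (Sg m n B a co) (Yv n B X) (2 + 2 * GG n B + i) (2 * GG n B + 2) =
      -∑ l ∈ range (n + 1), (a i l : 𝕜) * X l := by
  unfold Wv
  rw [row_Yv]
  have e1 : su n B (2 + 2 * GG n B + i) = -1 := by rw [su, if_neg (by omega)]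
  have e2 : sw m n B (2 + 2 * GG n B + i) = 1 := by
    rw [sw, if_neg (by omega), if_neg (by omega), if_neg (by omega), if_pos (by omega)]
  have e3 : ∀ g, sq n B (2 + 2 * GG n B + i) g = 0 := fun g => by
    rw [sq, if_neg (by omega), if_neg (by omega), if_neg (by omega)]
  have e4 : ∀ g, sp m n B a co (2 + 2 * GG n B + i) g = dig (a i (g / (B + 1))) (g % (B + 1)) :=
    fun g => by
      rw [sp, if_neg (by omega), if_neg (by omega), if_neg (by omega), if_neg (by omega),
        if_pos (by omega), Nat.add_sub_cancel_left]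
  rw [e1, e2]
  simp only [e3, e4]
  rw [sum_digs n B X (a i) ha]
  simp

/-- the value of the objective row -/
theorem obj_val (X : ℕ → 𝕜) (hc : ∀ l ≤ n, (co l).natAbs < 2 ^ (B + 1)) :
    Wv (Sg m n B a co) (Yv n B X) (2 + 2 * GG n B + m) (2 * GG n B + 2) =
      U0 n B X + ∑ l ∈ range (n + 1), (co l : 𝕜) * X l := by
  unfold Wv
  rw [row_Yv]
  have e1 : su n B (2 + 2 * GG n B + m) = -1 := by rw [su, if_neg (by omega)]
  have e2 : sw m n B (2 + 2 * GG n B + m) = 0 := by
    rw [sw, if_neg (by omega), if_neg (by omega), if_neg (by omega), if_neg (by omega)]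
  have e3 : ∀ g, sq n B (2 + 2 * GG n B + m) g = 0 := fun g => by
    rw [sq, if_neg (by omega), if_neg (by omega), if_neg (by omega)]
  have e4 : ∀ g, sp m n B a co (2 + 2 * GG n B + m) g = -dig (co (g / (B + 1))) (g % (B + 1)) :=
    fun g => by
      rw [sp, if_neg (by omega), if_neg (by omega), if_neg (by omega), if_neg (by omega),
        if_neg (by omega)]
  rw [e1, e2]
  simp only [e3, e4]
  have e5 : ∑ g ∈ range (GG n B), ((-dig (co (g / (B + 1))) (g % (B + 1)) : ℤ) : 𝕜) * pw B X g =
      -∑ l ∈ range (n + 1), (co l : 𝕜) * X l := by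
    rw [← sum_digs n B X co hc, ← sum_neg_distrib]
    refine sum_congr rfl fun g _ => ?_
    push_cast
    ring
  rw [e5]
  simp
  ring

end

end Pool.Agent.U17.PP
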