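import Pool.Agent.H671R2.PolyAuto
import Pool.Agent.H687R2.IntPoly
import Pool.Agent.H532R2.RatPoly
import Pool.Agent.ER.Rat
import Pool.Agent.U17.PP.Sgn

/-!
# Polynomial time: rational arithmetic
-/

set_option autoImplicit false

namespace Pool.Agent.U17.PP

open Pool.Agent.NPC Pool.Agent.NPC.H532.RP

attribute [fun_prop] UPoly UPoly.range UPoly.length UPoly.add UPoly.mul UPoly.comp UPoly.const
  NPC.Poly.ilt NPC.Poly.ile NPC.Poly.iadd NPC.Poly.isub NPC.Poly.imul NPC.Poly.ineg NPC.Poly.isum NPC.Poly.natAbs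

variable {α β : Type} [TEnc α] [TEnc β]

theorem bitsList {f : α → β} (hf : NPC.Poly f) : NPC.Poly (fun a => (bits (f a) : List Bool)) := by
  have h : NPC.Poly (fun b : β => (bits b : List Bool)) := by
    obtain ⟨c, p, h⟩ := PC.ofBits
    exact ⟨c, p, fun b => h (bits b)⟩
  exact h.comp hf

theorem uPoly_sz {f : α → β} (hf : NPC.Poly f) : UPoly (fun a => sz (f a)) :=
  UPoly.length (bitsList hf)

theorem poly_replicate_false {n : α → ℕ} (hn : UPoly n) :
    NPC.Poly (fun a => List.replicate (n a) false) :=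
  (NPC.Poly.map (F := fun _ (_ : Unit) => false) hn (NPC.Poly.const false)).congr fun a => by simp

theorem poly_two_pow {n : α → ℕ} (hn : UPoly n) : NPC.Poly (fun a => 2 ^ (n a)) :=
  (NPC.Poly.valBits (NPC.Poly.append (poly_replicate_false hn) (NPC.Poly.const [true]))).congr fun a => by
    rw [valB_replicate_false]; simp

theorem poly_mkRat {n : α → ℤ} {d : α → ℕ} (hn : NPC.Poly n) (hd : NPC.Poly d) :
    NPC.Poly (fun a => mkRat (n a) (d a)) := by
  have hg : NPC.Poly (fun a => Nat.gcd (n a).natAbs (d a)) := NPC.Poly.gcd (NPC.Poly.natAbs hn) hd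
  have h0 : NPC.Poly (fun a => decide (d a = 0)) := NPC.Poly.decide_eq hd (NPC.Poly.const 0)
  have h1 : NPC.Poly (fun a => if d a = 0 then (0 : ℤ) else n a / (Nat.gcd (n a).natAbs (d a) : ℤ)) :=
    NPC.Poly.ite h0 (NPC.Poly.const 0) (NPC.Poly.idiv hn hg)
  have h2 : NPC.Poly (fun a => if d a = 0 then 1 else d a / Nat.gcd (n a).natAbs (d a)) :=
    NPC.Poly.ite h0 (NPC.Poly.const 1) (NPC.Poly.div hd hg)
  have h3 : NPC.Poly (fun a => ((mkRat (n a) (d a)).num, (mkRat (n a) (d a)).den)) := by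
    refine (NPC.Poly.pair h1 h2).congr fun a => ?_
    rw [Rat.mkRat_def]
    split_ifs with h
    · rfl
    · rw [Rat.normalize_eq]
  exact h3

theorem poly_negQ {f : α → ℚ} (hf : NPC.Poly f) : NPC.Poly (fun a => - f a) :=
  (poly_mkRat (NPC.Poly.ineg (Poly_num hf)) (Poly_den hf)).congr fun a => by
    rw [Rat.mkRat_eq_div]
    push_cast
    rw [neg_div, Rat.num_div_den]

theorem poly_addQ {f g : α → ℚ} (hf : NPC.Poly f) (hg : NPC.Poly g) : NPC.Poly (fun a => f a + g a) :=
  (poly_mkRat (NPC.Poly.iadd (NPC.Poly.imul (Poly_num hf) (NPC.Poly.natCast (Poly_den hg)))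
    (NPC.Poly.imul (Poly_num hg) (NPC.Poly.natCast (Poly_den hf))))
    (NPC.Poly.mul (Poly_den hf) (Poly_den hg))).congr fun _ => (Rat.add_def' _ _).symm

theorem poly_mulQ {f g : α → ℚ} (hf : NPC.Poly f) (hg : NPC.Poly g) : NPC.Poly (fun a => f a * g a) :=
  (poly_mkRat (NPC.Poly.imul (Poly_num hf) (Poly_num hg))
    (NPC.Poly.mul (Poly_den hf) (Poly_den hg))).congr fun _ => (Rat.mul_def' _ _).symm

theorem poly_subQ {f g : α → ℚ} (hf : NPC.Poly f) (hg : NPC.Poly g) : NPC.Poly (fun a => f a - g a) :=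
  (poly_addQ hf (poly_negQ hg)).congr fun _ => (sub_eq_add_neg _ _).symm

theorem poly_castZQ {f : α → ℤ} (hf : NPC.Poly f) : NPC.Poly (fun a => ((f a : ℤ) : ℚ)) :=
  (poly_mkRat hf (NPC.Poly.const 1)).congr fun a => by
    rw [Rat.mkRat_eq_div]
    simp

theorem poly_castNQ {f : α → ℕ} (hf : NPC.Poly f) : NPC.Poly (fun a => ((f a : ℕ) : ℚ)) :=
  (poly_castZQ (NPC.Poly.natCast hf)).congr fun a => by simp

/-- integer multiples of rational rows -/
def zrow (l : List ℚ) : List ℤ := l.map fun q => zq (l.map Rat.den).prod q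

/-- the positive factor -/
def zden (l : List ℚ) : ℕ := (l.map Rat.den).prod

theorem zden_pos (l : List ℚ) : 0 < zden l := by
  unfold zden
  refine Nat.pos_of_ne_zero fun h => ?_
  rw [List.prod_eq_zero_iff] at h
  obtain ⟨q, -, hq⟩ := List.mem_map.1 h
  exact q.den_nz hq

theorem length_zrow (l : List ℚ) : (zrow l).length = l.length := by simp [zrow]

theorem getD_zrow (l : List ℚ) (i : ℕ) :
    (((zrow l).getD i 0 : ℤ) : ℚ) = zden l * l.getD i 0 := by
  unfold zrow
  rw [List.getD_eq_getElem?_getD, List.getD_eq_getElem?_getD, List.getElem?_map]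
  cases hq : l[i]? with
  | none => simp
  | some q =>
    simp only [Option.map_some, Option.getD_some]
    refine zq_cast ?_
    exact List.dvd_prod (List.mem_map.2 ⟨q, List.mem_of_getElem? hq, rfl⟩)

theorem sum_zrow (l : List ℚ) : (((zrow l).sum : ℤ) : ℚ) = zden l * l.sum := by
  have key : ∀ (D : ℕ) (l : List ℚ), (∀ q ∈ l, q.den ∣ D) →
      (((l.map fun q => zq D q).sum : ℤ) : ℚ) = D * l.sum := by
    intro D l
    induction l with
    | nil => intro _; simp
    | cons q l ih =>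
      intro h
      rw [List.map_cons, List.sum_cons, List.sum_cons, Int.cast_add,
        ih fun r hr => h r (List.mem_cons_of_mem _ hr), zq_cast (h q List.mem_cons_self)]
      ring
  exact key _ l fun q hq => List.dvd_prod (List.mem_map.2 ⟨q, hq, rfl⟩)

theorem poly_zden {l : α → List ℚ} (hl : NPC.Poly l) : NPC.Poly (fun a => zden (l a)) := by
  unfold zden
  exact Poly_prodN (NPC.Poly.map (F := fun _ q => Rat.den q) hl (Poly_den (NPC.Poly.snd NPC.Poly.id)))

theorem poly_zrow {l : α → List ℚ} (hl : NPC.Poly l) : NPC.Poly (fun a => zrow (l a)) := by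
  unfold zrow
  exact NPC.Poly.map (F := fun a q => zq ((l a).map Rat.den).prod q) hl
    (Poly_zq ((poly_zden hl).comp (NPC.Poly.fst NPC.Poly.id)) (NPC.Poly.snd NPC.Poly.id))

theorem poly_sumQ {l : α → List ℚ} (hl : NPC.Poly l) : NPC.Poly (fun a => (l a).sum) :=
  (poly_mkRat (NPC.Poly.isum (poly_zrow hl)) (poly_zden hl)).congr fun a => by
    rw [Rat.mkRat_eq_div, sum_zrow, mul_div_cancel_left₀]
    exact_mod_cast (zden_pos (l a)).ne'

/-- signed binary digits -/
theorem poly_dig {z : α → ℤ} {k : α → ℕ} (hz : NPC.Poly z) (hk : UPoly k) :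
    NPC.Poly (fun a => dig (z a) (k a)) := by
  unfold dig
  have h2 : NPC.Poly (fun a => 2 ^ (k a)) := poly_two_pow hk
  have h1 : NPC.Poly (fun a => decide ((z a).natAbs / 2 ^ (k a) % 2 = 1)) :=
    NPC.Poly.decide_eq (NPC.Poly.mod (NPC.Poly.div (NPC.Poly.natAbs hz) h2) (NPC.Poly.const 2)) (NPC.Poly.const 1)
  exact NPC.Poly.ite h1 (NPC.Poly.ite (NPC.Poly.isNeg hz) (NPC.Poly.const _) (NPC.Poly.const _)) (NPC.Poly.const _)

attribute [fun_prop] uPoly_sz poly_two_pow poly_negQ poly_addQ poly_mulQ poly_subQ poly_castZQ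
  poly_castNQ poly_zrow poly_sumQ poly_dig

end Pool.Agent.U17.PP
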