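import Pool.Agent.U17.PP.Sgn

/-!
# The partial sums are nonnegative, and the solutions are known
-/

set_option autoImplicit false

namespace Pool.Agent.U17.PP

open Finset

section

variable {m n B : ℕ} {a : ℕ → ℕ → ℤ} {co : ℕ → ℤ}

variable {𝕜 : Type} [Field 𝕜] [LinearOrder 𝕜] [IsStrictOrderedRing 𝕜]

theorem pw_nonneg {X : ℕ → 𝕜} (hX : ∀ l ≤ n, 0 ≤ X l) {g : ℕ} (hg : g < GG n B) :
    0 ≤ pw B X g := by
  unfold GG at hg
  have h3 : g / (B + 1) < n + 1 := Nat.div_lt_of_lt_mul (by rwa [mul_comm])
  have := hX (g / (B + 1)) (by omega)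
  unfold pw
  positivity

theorem pw_le {X : ℕ → 𝕜} (hX : ∀ l ≤ n, 0 ≤ X l) {g : ℕ} (hg : g < GG n B) :
    pw B X g ≤ U0 n B X := by
  unfold GG at hg
  have h3 : g / (B + 1) < n + 1 := Nat.div_lt_of_lt_mul (by rwa [mul_comm])
  have h4 := hX (g / (B + 1)) (by omega)
  have h5 : g % (B + 1) ≤ B := by
    have := Nat.mod_lt g (show 0 < B + 1 by omega)
    omega
  have h6 : X (g / (B + 1)) ≤ ∑ l ∈ range (n + 1), X l :=
    single_le_sum (f := X) (fun l hl => hX l (by rw [mem_range] at hl; omega)) (mem_range.2 h3)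
  unfold pw U0
  exact mul_le_mul (pow_le_pow_right₀ (by norm_num) h5) h6 h4 (by positivity)

theorem U0_nonneg {X : ℕ → 𝕜} (hX : ∀ l ≤ n, 0 ≤ X l) : 0 ≤ U0 n B X := by
  unfold U0
  have : 0 ≤ ∑ l ∈ range (n + 1), X l :=
    sum_nonneg fun l hl => hX l (by rw [mem_range] at hl; omega)
  positivity

theorem Yv_nonneg {X : ℕ → 𝕜} (hX : ∀ l ≤ n, 0 ≤ X l) (j : ℕ) : 0 ≤ Yv n B X j := by
  unfold Yv
  split_ifs
  · exact U0_nonneg hX
  · exact pw_nonneg hX (by omega)
  · exact pw_nonneg hX (by omega)
  · exact U0_nonneg hX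

theorem abs_le_U0 {X : ℕ → 𝕜} (hX : ∀ l ≤ n, 0 ≤ X l) {c : ℕ → ℤ}
    (hc : ∀ l ≤ n, (c l).natAbs < 2 ^ B) :
    ∑ l ∈ range (n + 1), ((c l).natAbs : 𝕜) * X l ≤ U0 n B X := by
  unfold U0
  rw [mul_sum]
  refine sum_le_sum fun l hl => ?_
  rw [mem_range] at hl
  refine mul_le_mul_of_nonneg_right ?_ (hX l (by omega))
  exact_mod_cast (hc l (by omega)).le

/-- the sum of the positive entries -/
theorem pos_le {X : ℕ → 𝕜} (hX : ∀ l ≤ n, 0 ≤ X l)
    (ha : ∀ i < m, ∀ l ≤ n, (a i l).natAbs < 2 ^ B) (hc : ∀ l ≤ n, (co l).natAbs < 2 ^ B)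
    {i : ℕ} (hi : i ≤ 2 + 2 * GG n B + m) :
    su n B i = 0 ∧ (∀ g, sp m n B a co i g = 0) ∧ (∀ g, sq n B i g = 0) ∨
    su n B i = -1 ∧ ∑ g ∈ range (GG n B), max (sp m n B a co i g : 𝕜) 0 * pw B X g +
        ∑ g ∈ range (GG n B), max (sq n B i g : 𝕜) 0 * pw B X g ≤ U0 n B X := by
  have hmul : ∀ g, g < GG n B → 0 ≤ pw B X g := fun g hg => pw_nonneg hX hg
  rcases Nat.lt_or_ge i (2 + GG n B) with h3 | h3
  · refine Or.inr ⟨by rw [su, if_neg (by omega)], ?_⟩
    by_cases h0 : i = 0
    · subst h0
      have e3 : ∀ g, sq n B 0 g = 0 := fun g => by rw [sq, if_pos (by omega)]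
      have e4 : ∑ g ∈ range (GG n B), max (sp m n B a co 0 g : 𝕜) 0 * pw B X g = U0 n B X := by
        rw [U0_eq, ← sum_last n B (fun g => pw B X g)]
        refine sum_congr rfl fun g _ => ?_
        rw [sp, if_pos rfl]
        split_ifs <;> simp
      rw [e4]
      simp [e3]
    by_cases h1 : i = 1
    · subst h1
      have e3 : ∀ g, sq n B 1 g = 0 := fun g => by rw [sq, if_pos (by omega)]
      have e4 : ∀ g, sp m n B a co 1 g = 0 := fun g => by
        rw [sp, if_neg (by omega), if_pos rfl]
      simp [e3, e4, U0_nonneg hX]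
    · have e3 : ∀ g ∈ range (GG n B), max (sq n B i g : 𝕜) 0 * pw B X g = 0 := by
        intro g _
        rw [sq, if_neg (by omega), if_pos h3]
        split_ifs <;> simp
      have e4 : ∑ g ∈ range (GG n B), max (sp m n B a co i g : 𝕜) 0 * pw B X g =
          pw B X (i - 2) := by
        have : ∀ g ∈ range (GG n B), max (sp m n B a co i g : 𝕜) 0 * pw B X g =
            if g = i - 2 then pw B X (i - 2) else 0 := by
          intro g _
          rw [sp, if_neg (by omega), if_neg (by omega), if_pos h3]
          split_ifs with h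
          · rw [h]; simp
          · simp
        rw [sum_congr rfl this, sum_ite_eq', if_pos (mem_range.2 (by omega))]
      rw [sum_eq_zero e3, e4, add_zero]
      exact pw_le hX (by omega)
  · rcases Nat.lt_or_ge i (2 + 2 * GG n B) with h4 | h4
    · by_cases hB : (i - (2 + GG n B)) % (B + 1) = B
      · left
        refine ⟨by rw [su, if_pos ⟨h3, h4, hB⟩], fun g => ?_, fun g => ?_⟩
        · rw [sp, if_neg (by omega), if_neg (by omega), if_neg (by omega), if_pos h4, if_pos hB]
        · rw [sq, if_neg (by omega), if_neg (by omega), if_pos h4, if_pos hB]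
      · right
        refine ⟨by rw [su, if_neg (by tauto)], ?_⟩
        have hlt : (i - (2 + GG n B)) % (B + 1) < B := by
          have := Nat.mod_lt (i - (2 + GG n B)) (show 0 < B + 1 by omega)
          omega
        have hg : i - (2 + GG n B) < GG n B := by omega
        have hg1 := lt_GG n B hg hlt
        have e3 : ∑ g ∈ range (GG n B), max (sq n B i g : 𝕜) 0 * pw B X g =
            pw B X (i - (2 + GG n B)) := by
          have : ∀ g ∈ range (GG n B), max (sq n B i g : 𝕜) 0 * pw B X g =
              if g = i - (2 + GG n B) then pw B X (i - (2 + GG n B)) else 0 := by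
            intro g _
            rw [sq, if_neg (by omega), if_neg (by omega), if_pos h4, if_neg hB]
            split_ifs with h
            · rw [h]; simp
            · simp
          rw [sum_congr rfl this, sum_ite_eq', if_pos (mem_range.2 (by omega))]
        have e4 : ∑ g ∈ range (GG n B), max (sp m n B a co i g : 𝕜) 0 * pw B X g =
            pw B X (i - (2 + GG n B)) := by
          have : ∀ g ∈ range (GG n B), max (sp m n B a co i g : 𝕜) 0 * pw B X g =
              (if g = i - (2 + GG n B) then pw B X (i - (2 + GG n B)) else 0) := by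
            intro g _
            rw [sp, if_neg (by omega), if_neg (by omega), if_neg (by omega), if_pos h4, if_neg hB]
            split_ifs with h h'
            · rw [h]; simp
            · simp
            · simp
          rw [sum_congr rfl this, sum_ite_eq', if_pos (mem_range.2 (by omega))]
        rw [e3, e4, ← two_mul, ← pw_succ B X hlt]
        exact pw_le hX hg1
    · right
      refine ⟨by rw [su, if_neg (by omega)], ?_⟩
      have e3 : ∀ g ∈ range (GG n B), max (sq n B i g : 𝕜) 0 * pw B X g = 0 := by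
        intro g _
        rw [sq, if_neg (by omega), if_neg (by omega), if_neg (by omega)]
        simp
      rw [sum_eq_zero e3, add_zero]
      have hpow : (2 : ℕ) ^ B ≤ 2 ^ (B + 1) := Nat.pow_le_pow_right (by norm_num) (Nat.le_succ B)
      rcases Nat.lt_or_ge i (2 + 2 * GG n B + m) with h5 | h5
      · refine le_trans ?_ (abs_le_U0 hX (ha (i - (2 + 2 * GG n B)) (by omega)))
        rw [← sum_abs_digs n B X _ (fun l hl =>
          (ha (i - (2 + 2 * GG n B)) (by omega) l hl).trans_le hpow)]
        refine sum_le_sum fun g hg => ?_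
        refine mul_le_mul_of_nonneg_right ?_ (hmul g (mem_range.1 hg))
        rw [sp, if_neg (by omega), if_neg (by omega), if_neg (by omega), if_neg (by omega),
          if_pos h5]
        exact max_le (le_abs_self _) (abs_nonneg _)
      · refine le_trans ?_ (abs_le_U0 hX hc)
        rw [← sum_abs_digs n B X _ (fun l hl => (hc l hl).trans_le hpow)]
        refine sum_le_sum fun g hg => ?_
        refine mul_le_mul_of_nonneg_right ?_ (hmul g (mem_range.1 hg))
        rw [sp, if_neg (by omega), if_neg (by omega), if_neg (by omega), if_neg (by omega),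
          if_neg (by omega)]
        push_cast
        rw [← abs_neg]
        exact max_le (le_abs_self _) (abs_nonneg _)

/-- the partial sums are nonnegative before the last column -/
theorem Wv_nonneg {X : ℕ → 𝕜} (hX : ∀ l ≤ n, 0 ≤ X l)
    (ha : ∀ i < m, ∀ l ≤ n, (a i l).natAbs < 2 ^ B) (hc : ∀ l ≤ n, (co l).natAbs < 2 ^ B)
    {i j : ℕ} (hi : i ≤ 2 + 2 * GG n B + m) (hj : j ≤ 2 * GG n B + 1) :
    0 ≤ Wv (Sg m n B a co) (Yv n B X) i j := by
  rcases j with _ | j
  · simp
  unfold Wv
  rw [sum_range_succ', neg_nonneg]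
  have h0 : Sg m n B a co i 0 = su n B i := by rw [Sg, if_pos rfl]
  rw [h0, Yv_0]
  have hp : ∀ g < GG n B, Sg m n B a co i (g + 1) = sp m n B a co i g := by
    intro g hg
    rw [Sg, if_neg (by omega), if_pos (by omega), Nat.add_sub_cancel]
  have hq : ∀ g < GG n B, Sg m n B a co i (GG n B + g + 1) = sq n B i g := by
    intro g hg
    rw [Sg, if_neg (by omega), if_neg (by omega), if_pos (by omega)]
    congr 1
    omega
  have hb : ∑ k ∈ range j, (Sg m n B a co i (k + 1) : 𝕜) * Yv n B X (k + 1) ≤
      ∑ g ∈ range (GG n B), max (sp m n B a co i g : 𝕜) 0 * pw B X g +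
        ∑ g ∈ range (GG n B), max (sq n B i g : 𝕜) 0 * pw B X g := by
    have h1 : ∑ k ∈ range j, (Sg m n B a co i (k + 1) : 𝕜) * Yv n B X (k + 1) ≤
        ∑ k ∈ range j, max (Sg m n B a co i (k + 1) : 𝕜) 0 * Yv n B X (k + 1) :=
      sum_le_sum fun k _ => mul_le_mul_of_nonneg_right (le_max_left _ _) (Yv_nonneg hX _)
    have h2 : ∑ k ∈ range j, max (Sg m n B a co i (k + 1) : 𝕜) 0 * Yv n B X (k + 1) ≤
        ∑ k ∈ range (GG n B + GG n B),
          max (Sg m n B a co i (k + 1) : 𝕜) 0 * Yv n B X (k + 1) :=
      sum_le_sum_of_subset_of_nonneg (range_subset_range.2 (by omega))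
        fun k _ _ => mul_nonneg (le_max_right _ _) (Yv_nonneg hX _)
    refine (h1.trans h2).trans (le_of_eq ?_)
    rw [sum_range_add]
    congr 1
    · refine sum_congr rfl fun g hg => ?_
      rw [mem_range] at hg
      rw [hp g hg, add_comm g 1, Yv_p _ _ _ hg]
    · refine sum_congr rfl fun g hg => ?_
      rw [mem_range] at hg
      rw [hq g hg, show GG n B + g + 1 = 1 + GG n B + g by ring, Yv_q _ _ _ hg]
  rcases pos_le (m := m) (a := a) (co := co) hX ha hc hi with ⟨z1, z2, z3⟩ | ⟨z1, z2⟩
  · rw [z1]
    have : ∑ g ∈ range (GG n B), max (sp m n B a co i g : 𝕜) 0 * pw B X g +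
        ∑ g ∈ range (GG n B), max (sq n B i g : 𝕜) 0 * pw B X g = 0 := by
      simp [z2, z3]
    push_cast
    linarith
  · rw [z1]
    push_cast
    linarith

/-- The values of the columns are determined by the closed rows. -/
theorem cols_eq {η : ℕ → 𝕜} (h1 : η (1 + (B + 1) * n) = 1)
    (h : ∀ i < 2 + 2 * GG n B, Wv (Sg m n B a co) η i (2 * GG n B + 2) = 0)
    {j : ℕ} (hj : j < 2 * GG n B + 2) :
    η j = Yv n B (fun l => if l < n then η (1 + (B + 1) * l) else 1) j := by
  set X : ℕ → 𝕜 := fun l => if l < n then η (1 + (B + 1) * l) else 1 with hX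
  have hXl : ∀ l ≤ n, X l = η (1 + (B + 1) * l) := by
    intro l hl
    by_cases h2 : l < n
    · simp [hX, h2]
    · have : l = n := by omega
      simp [hX, this, h1]
  have hrow : ∀ i < 2 + 2 * GG n B, (su n B i : 𝕜) * η 0 +
      ∑ g ∈ range (GG n B), (sp m n B a co i g : 𝕜) * η (1 + g) +
        ∑ g ∈ range (GG n B), (sq n B i g : 𝕜) * η (1 + GG n B + g) +
        (sw m n B i : 𝕜) * η (2 * GG n B + 1) = 0 := by
    intro i hi
    rw [← row_sum]
    have := h i hi
    unfold Wv at this
    exact neg_eq_zero.1 this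
  -- the last column is equal to the first
  have hw : η (2 * GG n B + 1) = η 0 := by
    have h2 := hrow 1 (by omega)
    have e1 : su n B 1 = -1 := by rw [su, if_neg (by omega)]
    have e2 : sw m n B 1 = 1 := by
      rw [sw, if_neg (by omega), if_pos (by omega)]
    have e3 : ∀ g, sq n B 1 g = 0 := fun g => by rw [sq, if_pos (by omega)]
    have e4 : ∀ g, sp m n B a co 1 g = 0 := fun g => by
      rw [sp, if_neg (by omega), if_pos rfl]
    rw [e1, e2] at h2
    simp only [e3, e4] at h2
    push_cast at h2
    simp only [zero_mul, sum_const_zero] at h2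
    linear_combination h2
  have hq : ∀ g < GG n B, η (1 + GG n B + g) = η (1 + g) := by
    intro g hg
    have h2 := hrow (2 + g) (by omega)
    have e1 : su n B (2 + g) = -1 := by rw [su, if_neg (by omega)]
    have e2 : sw m n B (2 + g) = 1 := by rw [sw, if_neg (by omega), if_pos (by omega)]
    have e3 : ∑ g' ∈ range (GG n B), (sq n B (2 + g) g' : 𝕜) * η (1 + GG n B + g') =
        -η (1 + GG n B + g) := by
      have : ∀ g' ∈ range (GG n B), (sq n B (2 + g) g' : 𝕜) * η (1 + GG n B + g') =
          if g' = g then -η (1 + GG n B + g) else 0 := by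
        intro g' _
        rw [sq, if_neg (by omega), if_pos (by omega), Nat.add_sub_cancel_left]
        split_ifs with h
        · rw [h]; simp
        · simp
      rw [sum_congr rfl this, sum_ite_eq', if_pos (mem_range.2 (by omega))]
    have e4 : ∑ g' ∈ range (GG n B), (sp m n B a co (2 + g) g' : 𝕜) * η (1 + g') =
        η (1 + g) := by
      have : ∀ g' ∈ range (GG n B), (sp m n B a co (2 + g) g' : 𝕜) * η (1 + g') =
          if g' = g then η (1 + g) else 0 := by
        intro g' _
        rw [sp, if_neg (by omega), if_neg (by omega), if_pos (by omega), Nat.add_sub_cancel_left]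
        split_ifs with h
        · rw [h]; simp
        · simp
      rw [sum_congr rfl this, sum_ite_eq', if_pos (mem_range.2 (by omega))]
    rw [e1, e2, e3, e4, hw] at h2
    push_cast at h2
    linear_combination -h2
  have hp : ∀ g < GG n B, g % (B + 1) < B → η (1 + (g + 1)) = 2 * η (1 + g) := by
    intro g hg hlt
    have hg1 := lt_GG n B hg hlt
    have h2 := hrow (2 + GG n B + g) (by omega)
    have hmod : ¬ (g % (B + 1) = B) := by omega
    have e1 : su n B (2 + GG n B + g) = -1 := by
      rw [su, if_neg]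
      rw [Nat.add_sub_cancel_left]
      tauto
    have e2 : sw m n B (2 + GG n B + g) = 1 := by
      rw [sw, if_neg (by omega), if_neg (by omega), if_pos (by omega), Nat.add_sub_cancel_left,
        if_neg hmod]
    have e3 : ∑ g' ∈ range (GG n B), (sq n B (2 + GG n B + g) g' : 𝕜) * η (1 + GG n B + g') =
        η (1 + GG n B + g) := by
      have : ∀ g' ∈ range (GG n B), (sq n B (2 + GG n B + g) g' : 𝕜) * η (1 + GG n B + g') =
          if g' = g then η (1 + GG n B + g) else 0 := by
        intro g' _
        rw [sq, if_neg (by omega), if_neg (by omega), if_pos (by omega), Nat.add_sub_cancel_left,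
          if_neg hmod]
        split_ifs with h
        · rw [h]; simp
        · simp
      rw [sum_congr rfl this, sum_ite_eq', if_pos (mem_range.2 (by omega))]
    have e4 : ∑ g' ∈ range (GG n B), (sp m n B a co (2 + GG n B + g) g' : 𝕜) * η (1 + g') =
        η (1 + g) - η (1 + (g + 1)) := by
      have : ∀ g' ∈ range (GG n B), (sp m n B a co (2 + GG n B + g) g' : 𝕜) * η (1 + g') =
          (if g' = g then η (1 + g) else 0) - (if g' = g + 1 then η (1 + (g + 1)) else 0) := by
        intro g' _
        rw [sp, if_neg (by omega), if_neg (by omega), if_neg (by omega), if_pos (by omega),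
          Nat.add_sub_cancel_left, if_neg hmod]
        by_cases h : g' = g
        · rw [if_pos h, if_pos h, if_neg (by omega), h]
          simp
        · rw [if_neg h, if_neg h]
          split_ifs with h'
          · rw [h']; simp
          · simp
      rw [sum_congr rfl this, sum_sub_distrib, sum_ite_eq', sum_ite_eq',
        if_pos (mem_range.2 (by omega)), if_pos (mem_range.2 (by omega))]
    rw [e1, e2, e3, e4, hw, hq g hg] at h2
    push_cast at h2
    linear_combination -h2
  have hpw : ∀ l ≤ n, ∀ k ≤ B, η (1 + ((B + 1) * l + k)) = 2 ^ k * X l := by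
    intro l hl k
    induction k with
    | zero =>
      intro _
      rw [hXl l hl]
      simp
    | succ k ih =>
      intro hk
      have h2 : (B + 1) * l + k < GG n B := by
        unfold GG
        have : (B + 1) * l ≤ (B + 1) * n := Nat.mul_le_mul_left _ hl
        have h3 : (n + 1) * (B + 1) = (B + 1) * n + (B + 1) := by ring
        omega
      have h3 := hp _ h2 (by rw [blk_mod B (by omega)]; omega)
      rw [show (B + 1) * l + (k + 1) = (B + 1) * l + k + 1 by ring, h3, ih (by omega), pow_succ]
      ring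
  have hpg : ∀ g < GG n B, η (1 + g) = pw B X g := by
    intro g hg
    have h2 := Nat.div_add_mod g (B + 1)
    have h3 : g / (B + 1) < n + 1 := Nat.div_lt_of_lt_mul (by unfold GG at hg; rwa [mul_comm])
    have h5 : g % (B + 1) ≤ B := by
      have := Nat.mod_lt g (show 0 < B + 1 by omega)
      omega
    have h4 := hpw (g / (B + 1)) (by omega) (g % (B + 1)) h5
    rw [h2] at h4
    exact h4
  have h0 : η 0 = U0 n B X := by
    have h2 := hrow 0 (by omega)
    have e1 : su n B 0 = -1 := by rw [su, if_neg (by omega)]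
    have e2 : sw m n B 0 = 0 := by rw [sw, if_pos rfl]
    have e3 : ∀ g, sq n B 0 g = 0 := fun g => by rw [sq, if_pos (by omega)]
    have e4 : ∑ g ∈ range (GG n B), (sp m n B a co 0 g : 𝕜) * η (1 + g) = U0 n B X := by
      rw [U0_eq, ← sum_last n B (fun g => pw B X g)]
      refine sum_congr rfl fun g hg => ?_
      rw [sp, if_pos rfl, hpg g (mem_range.1 hg)]
      split_ifs <;> simp
    rw [e1, e2, e4] at h2
    simp only [e3] at h2
    push_cast at h2
    simp only [zero_mul, sum_const_zero] at h2
    linear_combination -h2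
  rcases Nat.eq_zero_or_pos j with hj0 | hj0
  · rw [hj0, Yv_0, h0]
  · rcases Nat.lt_or_ge j (1 + GG n B) with h2 | h2
    · obtain ⟨g, rfl⟩ := Nat.exists_eq_add_of_le hj0
      rw [Yv_p _ _ _ (by omega), hpg g (by omega)]
    · rcases Nat.lt_or_ge j (1 + 2 * GG n B) with h3 | h3
      · obtain ⟨g, rfl⟩ := Nat.exists_eq_add_of_le h2
        rw [Yv_q _ _ _ (by omega), hq g (by omega), hpg g (by omega)]
      · have : j = 2 * GG n B + 1 := by omega
        rw [this, Yv_w, hw, h0]

end

end Pool.Agent.U17.PP
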